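import Pool.Agent.X253.RK.A5
import Pool.Agent.X253.MN.A5

/-!
# The curves over the fields generated by cube roots of rational integers
-/

set_option autoImplicit false
set_option linter.unusedVariables false
set_option linter.unusedSectionVars false

namespace Pool.Agent.X253.RK

open NumberField IsDedekindDomain WeierstrassCurve
open Pool.Agent.Y692.QS (Ei w nr toC toC_inj ns mul_star toC_normSq)
open Pool.Agent.Y703.CT (WD Cls NoSplit)
open Pool.Agent.TH841.NF (Sc tF tF_zero tF_some tF_add)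
open Pool.Agent.X253.C3
open Pool.Agent.X253.MN (finK)
open Pool.Agent.X253.JC (tw GA tw_cls)
open scoped Classical

lemma fin_sc {F1 F2 : Type} [Field F1] [Field F2] {ι : F1 →+* F2} {u : F2}
    {W : WeierstrassCurve F1} {W' : WeierstrassCurve F2} (S : Sc ι u W W')
    (h : Finite W'.toAffine.Point) : Finite W.toAffine.Point := by
  have hu2 : u ^ 2 ≠ 0 := pow_ne_zero _ S.hu
  have hu3 : u ^ 3 ≠ 0 := pow_ne_zero _ S.hu
  refine Finite.of_injective (tF S) ?_
  intro P Q hPQ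
  match P, Q with
  | 0, 0 => rfl
  | 0, .some x y h =>
    rw [tF_some, tF_zero] at hPQ
    exact absurd hPQ (by intro h; cases h)
  | .some x y h, 0 =>
    rw [tF_some, tF_zero] at hPQ
    exact absurd hPQ (by intro h; cases h)
  | .some x y h, .some x' y' h' =>
    rw [tF_some, tF_some, Affine.Point.some.injEq] at hPQ
    rw [Affine.Point.some.injEq]
    exact ⟨ι.injective (mul_right_cancel₀ hu2 hPQ.1), ι.injective (mul_right_cancel₀ hu3 hPQ.2)⟩

/-- the primes that divide the radicands -/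
noncomputable def TT (S : Finset ℕ) : Finset ℕ := (∏ m ∈ S, m).primeFactors

/-- the exponents of the product -/
noncomputable def ex (S : Finset ℕ) (c : S → ℕ) (t : ℕ) : ℕ := ∑ i : S, c i * (i : ℕ).factorization t

lemma prod_ex {S : Finset ℕ} (h0 : ∀ m ∈ S, m ≠ 0) (c : S → ℕ) :
    ∏ i : S, (i : ℕ) ^ c i = ∏ t ∈ TT S, t ^ ex S c t := by
  have h1 : ∀ i : S, (i : ℕ) ^ c i = ∏ t ∈ TT S, t ^ (c i * (i : ℕ).factorization t) := by
    intro i
    have hsub : (i : ℕ).factorization.support ⊆ TT S := by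
      intro p hp
      rw [Nat.support_factorization] at hp
      unfold TT
      exact Nat.primeFactors_mono (Finset.dvd_prod_of_mem (fun q => q) i.2)
        (Finset.prod_ne_zero_iff.2 h0) hp
    have h2 : (i : ℕ) = ∏ t ∈ TT S, t ^ (i : ℕ).factorization t := by
      conv_lhs => rw [← Nat.prod_factorization_pow_eq_self (h0 i.1 i.2)]
      exact Finsupp.prod_of_support_subset _ hsub _ fun _ _ => pow_zero _
    conv_lhs => rw [h2]
    rw [← Finset.prod_pow]
    refine Finset.prod_congr rfl fun t _ => ?_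
    rw [← pow_mul, mul_comm]
  rw [Finset.prod_congr rfl fun i _ => h1 i, Finset.prod_comm]
  refine Finset.prod_congr rfl fun t _ => ?_
  rw [Finset.prod_pow_eq_pow_sum]
  rfl

/-- the exponents modulo `3` -/
noncomputable def aT (S : Finset ℕ) (ε : S → Fin 3) (t : TT S) : Fin 3 :=
  ⟨ex S (fun i => (ε i : ℕ)) t % 3, Nat.mod_lt _ (by norm_num)⟩

/-- the cube -/
noncomputable def nT (S : Finset ℕ) (ε : S → Fin 3) : ℕ :=
  ∏ t ∈ TT S, t ^ (ex S (fun i => (ε i : ℕ)) t / 3)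

lemma tw_nT {S : Finset ℕ} (h0 : ∀ m ∈ S, m ≠ 0) (D : ℕ) (ε : S → Fin 3) :
    tw (TT S) D (aT S ε) * nT S ε ^ 3 = DN D (fun i : S => (i : ℕ)) ε := by
  unfold tw DN nT
  rw [prod_ex h0 (fun i => (ε i : ℕ)), mul_assoc]
  congr 1
  rw [Finset.prod_coe_sort (TT S)
    (fun t => t ^ (ex S (fun i => (ε i : ℕ)) t % 3)) |> (fun h => show ∏ t : TT S,
      (t : ℕ) ^ (aT S ε t : ℕ) = _ from h), ← Finset.prod_pow, ← Finset.prod_mul_distrib]
  refine Finset.prod_congr rfl fun t _ => ?_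
  rw [← pow_mul, ← pow_add]
  congr 1
  omega

lemma aT_inj {S : Finset ℕ} (h0 : ∀ m ∈ S, m ≠ 0) (hI : Ind (fun i : S => (i : ℕ))) :
    Function.Injective (aT S) := by
  intro ε ε' h
  obtain ⟨c, hc⟩ : ∃ c : S → ZMod 3, ∀ i, c i = ((ε i : ℕ) : ZMod 3) - ((ε' i : ℕ) : ZMod 3) :=
    ⟨_, fun _ => rfl⟩
  have h1 : ∀ t ∈ TT S, 3 ∣ ex S (fun i => (c i).val) t := by
    intro t ht
    rw [← ZMod.natCast_eq_zero_iff]
    have h2 : ((ex S (fun i => (ε i : ℕ)) t : ℕ) : ZMod 3) =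
        ((ex S (fun i => (ε' i : ℕ)) t : ℕ) : ZMod 3) := by
      have h3 := congrArg Fin.val (congrFun h ⟨t, ht⟩)
      have h4 : ex S (fun i => (ε i : ℕ)) t % 3 = ex S (fun i => (ε' i : ℕ)) t % 3 := h3
      exact (ZMod.natCast_eq_natCast_iff _ _ _).2 h4
    unfold ex at h2 ⊢
    push_cast at h2 ⊢
    have h5 : ∀ i : S, (((c i).val : ℕ) : ZMod 3) = c i := fun i => ZMod.natCast_zmod_val _
    rw [Finset.sum_congr rfl fun i _ => by rw [h5 i, hc i, sub_mul], Finset.sum_sub_distrib, h2,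
      sub_self]
  have h2 := hI c (∏ t ∈ TT S, t ^ (ex S (fun i => (c i).val) t / 3)) (by
    rw [prod_ex h0 (fun i => (c i).val), ← Finset.prod_pow]
    refine Finset.prod_congr rfl fun t ht => ?_
    rw [← pow_mul, Nat.div_mul_cancel (h1 t ht)])
  funext i
  have h3 := h2 i
  rw [hc] at h3
  have h4 : ∀ a b : Fin 3, ((a : ℕ) : ZMod 3) - ((b : ℕ) : ZMod 3) = 0 → a = b := by decide
  exact h4 _ _ h3

lemma hp_inst {α β : Type} {f : α → ℂ} (i1 i2 : Fintype β) (g : β → ℂ)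
    (h : HasProd f (@Finset.prod β ℂ _ (@Finset.univ β i1) g)) :
    HasProd f (@Finset.prod β ℂ _ (@Finset.univ β i2) g) := by
  have e : i1 = i2 := Subsingleton.elim _ _
  subst e
  exact h

/-- **The main theorem on one curve and one field.** -/
theorem mainR {S : Finset ℕ} (h0 : ∀ m ∈ S, m ≠ 0)
    (h9 : ∀ m ∈ S, ∀ p : ℕ, p.Prime → p ∣ m → p % 9 = 1) (hI : Ind (fun i : S => (i : ℕ)))
    {D : ℕ} (hD : Cls D) (hTD : ∀ t ∈ TT S, ¬ t ∣ D)
    (hG : GA (TT S) (Finset.univ.image (aT S)) D)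
    (K : Type) [Field K] [NumberField K] (x : S → K) (hx : ∀ i, x i ^ 3 = ((i : ℕ) : K))
    (hgen : ∀ L : Subfield K, (∀ i, x i ∈ L) → L = ⊤) :
    Module.finrank ℚ K = 3 ^ S.card ∧ Finite (Ec ((D : ℕ) : K)).toAffine.Point ∧
    ∃ L : ℂ → ℂ, Differentiable ℂ L ∧ L 1 ≠ 0 ∧ ∀ s : ℂ, 3 / 2 < s.re →
      HasProd (fun v : {v : HeightOneSpectrum (𝓞 K) //
        ((3 * D * ∏ m ∈ S, m : ℕ) : 𝓞 K) ∉ v.asIdeal} => EF ((D : ℕ) : 𝓞 K) s v.1) (L s) := by
  have hl0 : ∀ i : S, (i : ℕ) ≠ 0 := fun i => h0 i.1 i.2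
  have hT : ∀ t ∈ TT S, t.Prime ∧ t % 9 = 1 := by
    intro t ht
    have hp := Nat.prime_of_mem_primeFactors ht
    obtain ⟨m, hm, hmt⟩ := (hp.prime.dvd_finsetProd_iff _).1 (Nat.dvd_of_mem_primeFactors ht)
    exact ⟨hp, h9 m hm t hp hmt⟩
  have hno := no_omega hl0 hI hx hgen
  obtain ⟨F, _, _, _, J, hJ2, h2, hgal, hgenK⟩ := ext_field hno
  obtain ⟨K₀, _, _, _, j, hK2, hjJ⟩ := sub_field hJ2
  have hJ3 := J3 hJ2
  set I : K₀ := ((j w : 𝓞 K₀) : K₀) with hI'
  have hI2 : I ^ 2 + I + 1 = 0 := by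
    have h1 : (w : Ei) ^ 2 + w + 1 = 0 := by decide
    have h2 := congrArg (fun t : Ei => ((j t : 𝓞 K₀) : K₀)) h1
    simp only [map_add, map_pow, map_one, map_zero] at h2
    exact h2
  have hJ'2 : (algebraMap K₀ F I) ^ 2 + algebraMap K₀ F I + 1 = 0 := by
    rw [← map_pow, ← map_one (algebraMap K₀ F), ← map_add, ← map_add, hI2, map_zero]
  have hJJ : ∀ L : Subfield F, algebraMap K₀ F I ∈ L → J ∈ L := by
    intro L h
    rcases hjJ with h1 | h1
    · rw [← h1]; exact h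
    · have h4 : J = (algebraMap K₀ F I) ^ 2 := by
        rw [h1]
        linear_combination (-J) * hJ3
      rw [h4]
      exact pow_mem h 2
  have hyi : ∀ i : S, _root_.IsIntegral ℤ (algebraMap K F (x i)) := by
    intro i
    have h1 : _root_.IsIntegral ℤ ((algebraMap K F (x i)) ^ 3) := by
      rw [← map_pow, hx i, map_natCast]
      have h2 := isIntegral_algebraMap (R := ℤ) (A := F) (x := ((i : ℕ) : ℤ))
      rwa [eq_intCast, Int.cast_natCast] at h2
    exact _root_.IsIntegral.of_pow (by norm_num) h1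
  set yo : S → 𝓞 F := fun i => ⟨algebraMap K F (x i), hyi i⟩ with hyo
  have hyo3 : ∀ i, yo i ^ 3 = (((i : ℕ) : ℕ) : 𝓞 F) := by
    intro i
    apply RingOfIntegers.ext
    have h2 : ((yo i ^ 3 : 𝓞 F) : F) = (algebraMap K F (x i)) ^ 3 :=
      map_pow (algebraMap (𝓞 F) F) _ _
    rw [h2, ← map_pow, hx i, map_natCast]
    exact (map_natCast (algebraMap (𝓞 F) F) _).symm
  have hgenF : ∀ L : Subfield F, algebraMap K₀ F I ∈ L → (∀ i, ((yo i : 𝓞 F) : F) ∈ L) →
      L = ⊤ := by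
    intro L h1 h2
    refine hgenK L (fun k => ?_) (hJJ L h1)
    have h3 := hgen (L.comap (algebraMap K F)) fun i => h2 i
    have h4 : k ∈ L.comap (algebraMap K F) := by
      rw [h3]
      trivial
    exact h4
  have hxK : ∀ i : S, (algebraMap K F (x i)) ^ 3 =
      algebraMap K₀ F ((((i : ℕ) : 𝓞 K₀)) : K₀) := fun i => by
    rw [← map_pow, hx]
    have h1 : (((i : ℕ) : 𝓞 K₀) : K₀) = ((i : ℕ) : K₀) :=
      map_natCast (algebraMap (𝓞 K₀) K₀) _
    rw [h1, map_natCast, map_natCast]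
  have hdeg : Module.finrank K₀ F = 3 ^ Fintype.card S :=
    deg3g I hI2 (fun i : S => ((i : ℕ) : 𝓞 K₀)) (fun i => by exact_mod_cast hl0 i)
      (ind_gen j hl0 hI) (fun i => algebraMap K F (x i)) hxK
      (fun L h1 h2 => hgenF L (h1 _) h2)
  have H : Sys K j (fun i : S => (i : ℕ)) yo :=
    { J2 := hJ'2
      two := h2
      gal := hgal
      genK := fun L h1 h3 => hgenK L h1 (hJJ L h3)
      l0 := hl0
      cube := hyo3
      genF := hgenF
      deg := hdeg }
  have hgood : ∀ ε : S → Fin 3, Cls (tw (TT S) D (aT S ε)) ∧ NoSplit (tw (TT S) D (aT S ε)) :=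
    fun ε => ⟨tw_cls hT hD hTD _, hG _ (Finset.mem_image_of_mem _ (Finset.mem_univ ε))⟩
  have hn0 : ∀ ε : S → Fin 3, nT S ε ≠ 0 := fun ε =>
    Finset.prod_ne_zero_iff.2 fun t ht => pow_ne_zero _ (hT t ht).1.ne_zero
  have hM0 : 3 * D * ∏ m ∈ S, m ≠ 0 := mul_ne_zero (mul_ne_zero (by norm_num) hD.1.1)
    (Finset.prod_ne_zero_iff.2 h0)
  have h3M : 3 ∣ 3 * D * ∏ m ∈ S, m := by rw [mul_assoc]; exact dvd_mul_right _ _
  have hDM : D ∣ 3 * D * ∏ m ∈ S, m := Dvd.dvd.mul_right (dvd_mul_left _ _) _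
  have hlM : ∀ i : S, (i : ℕ) ∣ 3 * D * ∏ m ∈ S, m := fun i =>
    Dvd.dvd.mul_left (Finset.dvd_prod_of_mem (fun q => q) i.2) _
  refine ⟨?_, ?_, ?_⟩
  · have e1 := Module.finrank_mul_finrank ℚ K F
    have e2 := Module.finrank_mul_finrank ℚ K₀ F
    rw [h2] at e1
    rw [hK2, hdeg, Fintype.card_coe] at e2
    omega
  · have hF : Finite (Ec (algebraMap K₀ F ((D : ℕ) : K₀))).toAffine.Point := by
      refine pts_fin I hI2 (fun i : S => (((i : ℕ) : ℕ) : K₀))
        (fun i => by exact_mod_cast hl0 i) (fun i => algebraMap K F (x i)) (fun i => ?_)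
        (fun L h1 h2 => hgenF L (h1 _) h2) ((D : ℕ) : K₀) (by exact_mod_cast hD.1.1) (fun ε => ?_)
      · rw [← map_pow, hx, map_natCast, map_natCast]
      · have h1 := finK j (hgood ε).1 (hgood ε).2
        have hn : ((nT S ε : ℕ) : K₀) ≠ 0 := by exact_mod_cast hn0 ε
        have hprod : ((D : ℕ) : K₀) * ∏ i : S, (((i : ℕ) : ℕ) : K₀) ^ (ε i : ℕ) =
            ((tw (TT S) D (aT S ε) : ℕ) : K₀) * ((nT S ε : ℕ) : K₀) ^ 3 := by
          have h2 := congrArg (Nat.cast : ℕ → K₀) (tw_nT h0 D ε)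
          rw [Nat.cast_mul, Nat.cast_pow] at h2
          rw [h2]
          unfold DN
          push_cast
          rfl
        rw [hprod]
        refine fin_sc (ι := RingHom.id K₀) (u := (((nT S ε : ℕ) : K₀))⁻¹) ?_ h1
        refine ⟨inv_ne_zero hn, ?_, ?_, ?_, ?_, ?_⟩
        · change (0 : K₀) = 0 * _
          rw [zero_mul]
        · change (0 : K₀) = 0 * _
          rw [zero_mul]
        · change ((tw (TT S) D (aT S ε) : ℕ) : K₀) =
            ((tw (TT S) D (aT S ε) : ℕ) : K₀) * ((nT S ε : ℕ) : K₀) ^ 3 *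
              ((((nT S ε : ℕ) : K₀))⁻¹) ^ 3
          rw [mul_assoc, ← mul_pow, mul_inv_cancel₀ hn, one_pow, mul_one]
        · change (0 : K₀) = 0 * _
          rw [zero_mul]
        · change (0 : K₀) = 0 * _
          rw [zero_mul]
    rw [map_natCast] at hF
    refine fin_sc (ι := algebraMap K F) (u := 1) ?_ hF
    refine ⟨one_ne_zero, ?_, ?_, ?_, ?_, ?_⟩
    · change (0 : F) = algebraMap K F 0 * _
      rw [map_zero, zero_mul]
    · change (0 : F) = algebraMap K F 0 * _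
      rw [map_zero, zero_mul]
    · change ((D : ℕ) : F) = algebraMap K F ((D : ℕ) : K) * 1 ^ 3
      rw [map_natCast, one_pow, mul_one]
    · change (0 : F) = algebraMap K F 0 * _
      rw [map_zero, zero_mul]
    · change (0 : F) = algebraMap K F 0 * _
      rw [map_zero, zero_mul]
  · choose L hL1 hL2 hL3 using fun ε : S → Fin 3 => l_out (hgood ε).1 (hgood ε).2 hM0 h3M
      (fun p hp hpN => by
        rcases hp.dvd_mul.1 (show p ∣ D * ∏ t : TT S, (t : ℕ) ^ (aT S ε t : ℕ) from hpN) with h | h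
        · exact h.trans hDM
        · obtain ⟨t, -, ht⟩ := (hp.prime.dvd_finsetProd_iff _).1 h
          have h1 := hp.dvd_of_dvd_pow ht
          have h3 : (t : ℕ) ∣ ∏ m ∈ S, m := Nat.dvd_of_mem_primeFactors t.2
          exact (h1.trans h3).mul_left _)
    refine ⟨fun s => ∏ ε, L ε s, Differentiable.fun_finsetProd fun ε _ => hL1 ε,
      Finset.prod_ne_zero_iff.2 fun ε _ => hL2 ε, fun s hs => ?_⟩
    have key := eulK H hM0 h3M hDM hlM hs (fun ε => tw (TT S) D (aT S ε)) (nT S)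
      (fun ε => tw_nT h0 D ε) (fun ε => L ε s) fun ε => hL3 ε s hs
    exact hp_inst _ _ _ key

end Pool.Agent.X253.RK
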