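import Pool.Agent.X253.C3.Rep9

/-!
# Number fields generated by cube roots of rational integers
-/

set_option autoImplicit false
set_option linter.unusedVariables false
set_option linter.unusedSectionVars false

namespace Pool.Agent.X253.RK

open NumberField IsDedekindDomain WeierstrassCurve Polynomial
open Pool.Agent.Y692.QS (Ei w nr toC toC_inj ns mul_star toC_normSq)
open Pool.Agent.Y715.T.RecG (Pq cs_spec cs_uniq)
open Pool.Agent.X253.C3
open scoped Classical

/-- independent modulo cubes -/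
def Ind {S : Type} [Fintype S] (l : S → ℕ) : Prop :=
  ∀ (c : S → ZMod 3) (n : ℕ), n ^ 3 = ∏ i, l i ^ (c i).val → ∀ i, c i = 0

lemma cube_of_sq {P n : ℕ} (hP : P ≠ 0) (h : n ^ 3 = P ^ 2) : ∃ m : ℕ, m ^ 3 = P := by
  have hn : n ≠ 0 := by
    rintro rfl
    rw [zero_pow (by norm_num)] at h
    exact (pow_ne_zero 2 hP) h.symm
  have h1 : n ^ 3 ∣ P ^ 3 := ⟨P, by rw [h]; ring⟩
  obtain ⟨m, hm⟩ := (Nat.pow_dvd_pow_iff (by norm_num)).1 h1
  refine ⟨m, ?_⟩
  have h2 : n ^ 3 * m ^ 3 = n ^ 3 * P := by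
    calc n ^ 3 * m ^ 3 = P ^ 3 := by rw [hm]; ring
      _ = P ^ 2 * P := by ring
      _ = n ^ 3 * P := by rw [h]
  exact Nat.eq_of_mul_eq_mul_left (by positivity) h2

theorem ind_gen {K : Type} [Field K] [NumberField K] (j : Ei ≃+* 𝓞 K) {S : Type} [Fintype S]
    {l : S → ℕ} (hl : ∀ i, l i ≠ 0) (hI : Ind l) (c : S → ZMod 3)
    (b : 𝓞 K) (hb : b ^ 3 = ∏ i, ((l i : ℕ) : 𝓞 K) ^ (c i).val) (i : S) : c i = 0 := by
  set z : Ei := j.symm b with hz
  set P : ℕ := ∏ i, l i ^ (c i).val with hP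
  have h1 : z ^ 3 = ((P : ℕ) : Ei) := by
    have h2 := congrArg j.symm hb
    rw [map_pow, map_prod] at h2
    rw [hz, h2, hP, Nat.cast_prod]
    refine Finset.prod_congr rfl fun i _ => ?_
    rw [map_pow, map_natCast, Nat.cast_pow]
  have h2 : ((nr z : ℤ) : Ei) ^ 3 = ((P : ℕ) : Ei) ^ 2 := by
    have h3 : (star z) ^ 3 = ((P : ℕ) : Ei) := by
      rw [← star_pow, h1, star_natCast]
    calc ((nr z : ℤ) : Ei) ^ 3 = (z * star z) ^ 3 := by rw [mul_star]
      _ = z ^ 3 * (star z) ^ 3 := mul_pow _ _ _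
      _ = ((P : ℕ) : Ei) ^ 2 := by rw [h1, h3, pow_two]
  have h3 : (nr z) ^ 3 = (P : ℤ) ^ 2 := by exact_mod_cast h2
  have h4 : (nr z).natAbs ^ 3 = P ^ 2 := by
    have := congrArg Int.natAbs h3
    rwa [Int.natAbs_pow, Int.natAbs_pow, Int.natAbs_natCast] at this
  obtain ⟨m, hm⟩ := cube_of_sq (Finset.prod_ne_zero_iff.2 fun i _ => pow_ne_zero _ (hl i)) h4
  exact hI c m hm i

section

variable {K : Type} [Field K] [NumberField K] {S : Type} [Fintype S]

/-- the third roots of unity are not in a field generated by independent cube roots -/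
theorem no_omega {l : S → ℕ} (hl : ∀ i, l i ≠ 0) (hI : Ind l) {x : S → K}
    (hx : ∀ i, x i ^ 3 = ((l i : ℕ) : K)) (hgen : ∀ L : Subfield K, (∀ i, x i ∈ L) → L = ⊤)
    (J : K) : J ^ 2 + J + 1 ≠ 0 := by
  intro hJ2
  obtain ⟨K₀, _, _, _, j, hK2, hjJ⟩ := sub_field hJ2
  set I : K₀ := ((j w : 𝓞 K₀) : K₀) with hI'
  have hI2 : I ^ 2 + I + 1 = 0 := by
    have h1 : (w : Ei) ^ 2 + w + 1 = 0 := by decide
    have h2 := congrArg (fun t : Ei => ((j t : 𝓞 K₀) : K₀)) h1
    simp only [map_add, map_pow, map_one, map_zero] at h2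
    exact h2
  set J' : K := algebraMap K₀ K I with hJ'
  have hJ'2 : J' ^ 2 + J' + 1 = 0 := by
    rw [hJ', ← map_pow, ← map_one (algebraMap K₀ K), ← map_add, ← map_add, hI2, map_zero]
  have hlq : ∀ i, ((l i : ℕ) : ℚ) ≠ 0 := fun i => by exact_mod_cast hl i
  have hxq : ∀ i, x i ^ 3 = algebraMap ℚ K ((l i : ℕ) : ℚ) := fun i => by
    rw [hx, map_natCast]
  have hgal : IsGalois ℚ K := galQ hJ'2 (fun i => ((l i : ℕ) : ℚ)) x hxq fun L _ h => hgen L h
  obtain ⟨Φ, hΦ⟩ := galPhiG I hI2 (fun i => ((l i : ℕ) : 𝓞 K₀))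
    (fun i => by exact_mod_cast hl i) (ind_gen j hl hI) x
    (fun i => by
      rw [hx]
      have h1 : (((l i : ℕ) : 𝓞 K₀) : K₀) = ((l i : ℕ) : K₀) :=
        map_natCast (algebraMap (𝓞 K₀) K₀) _
      rw [h1, map_natCast]) (fun L _ h2 => hgen L h2)
  obtain ⟨c, hc⟩ := exists_c hJ'2
  choose a ha using fun i => sx hJ'2 hxq hlq c i
  set τ : K ≃ₐ[K₀] K := (Φ.symm (fun i => -a i)).toMul with hτ
  have hτx : ∀ i, τ (x i) = J' ^ (-a i).val * x i := by
    intro i
    have h1 := hΦ τ i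
    rw [hτ, ofMul_toMul, AddEquiv.apply_symm_apply] at h1
    exact h1
  have hτJ : τ J' = J' := τ.commutes I
  have hJ3 := J3 hJ'2
  set σ : K ≃ₐ[ℚ] K := τ.restrictScalars ℚ * c with hσ
  have hσx : ∀ i, σ (x i) = x i := by
    intro i
    show τ (c (x i)) = x i
    rw [ha, map_mul, map_pow, hτJ, hτx, ← mul_assoc, ← pow_add]
    have h : ∀ a : ZMod 3, a.val + (-a).val = 0 ∨ a.val + (-a).val = 3 := by decide
    rcases h (a i) with h | h
    · rw [h, pow_zero, one_mul]
    · rw [h, hJ3, one_mul]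
  have hσJ : σ J' = J' ^ 2 := by
    show τ (c J') = _
    rw [hc, map_pow, hτJ]
  have h3 := hgen (IntermediateField.fixedField (Subgroup.zpowers σ)).toSubfield
    (fun i => by
      show x i ∈ IntermediateField.fixedField (Subgroup.zpowers σ)
      rw [IntermediateField.mem_fixedField_iff]
      intro g hg
      obtain ⟨n, rfl⟩ := Subgroup.mem_zpowers_iff.1 hg
      have h4 : σ ∈ MulAction.stabilizer (K ≃ₐ[ℚ] K) (x i) := hσx i
      exact Subgroup.zpow_mem _ h4 n)
  have h6 : J' ∈ (IntermediateField.fixedField (Subgroup.zpowers σ)).toSubfield := by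
    rw [h3]
    trivial
  have h7 : J' ∈ IntermediateField.fixedField (Subgroup.zpowers σ) := h6
  rw [IntermediateField.mem_fixedField_iff] at h7
  have h8 := h7 σ (Subgroup.mem_zpowers _)
  rw [hσJ] at h8
  exact J_ne hJ'2 h8

/-- the extension by the third roots of unity -/
theorem ext_field (hno : ∀ J : K, J ^ 2 + J + 1 ≠ 0) :
    ∃ (F : Type) (_ : Field F) (_ : NumberField F) (_ : Algebra K F) (J : F),
      J ^ 2 + J + 1 = 0 ∧ Module.finrank K F = 2 ∧ IsGalois K F ∧
      ∀ L : Subfield F, (∀ k : K, algebraMap K F k ∈ L) → J ∈ L → L = ⊤ := by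
  have hζ := IsCyclotomicExtension.zeta_spec 3 K (CyclotomicField 3 K)
  set ζ := IsCyclotomicExtension.zeta 3 K (CyclotomicField 3 K) with hζ'
  have hirr : Irreducible (cyclotomic 3 K) := by
    rw [cyclotomic_three]
    have hmon : (X ^ 2 + X + 1 : K[X]).Monic := by
      have := cyclotomic.monic 3 K
      rwa [cyclotomic_three] at this
    have hdeg : (X ^ 2 + X + 1 : K[X]).natDegree = 2 := by
      have := natDegree_cyclotomic 3 K
      rw [cyclotomic_three] at this
      rw [this]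
      rfl
    rw [hmon.irreducible_iff_roots_eq_zero_of_degree_le_three (by rw [hdeg]) (by rw [hdeg]; norm_num)]
    rw [Multiset.eq_zero_iff_forall_notMem]
    intro a ha
    have h1 := isRoot_of_mem_roots ha
    rw [IsRoot.def, eval_add, eval_add, eval_pow, eval_X, eval_one] at h1
    exact hno a h1
  refine ⟨CyclotomicField 3 K, inferInstance, inferInstance, inferInstance, ζ, ?_, ?_, ?_, ?_⟩
  · have h1 : ζ ^ 3 = 1 := hζ.pow_eq_one
    have h2 : ζ ≠ 1 := hζ.ne_one (by norm_num)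
    have h3 : (ζ - 1) * (ζ ^ 2 + ζ + 1) = 0 := by linear_combination h1
    exact (mul_eq_zero.1 h3).resolve_left (sub_ne_zero.2 h2)
  · rw [IsCyclotomicExtension.finrank (n := 3) (K := K) (CyclotomicField 3 K) hirr]
    rfl
  · exact IsCyclotomicExtension.isGalois {3} K (CyclotomicField 3 K)
  · intro L h1 h2
    have h3 := IsCyclotomicExtension.adjoin_primitive_root_eq_top (n := 3) (A := K) hζ
    rw [eq_top_iff]
    intro y _
    have h4 : y ∈ Algebra.adjoin K {ζ} := by
      rw [h3]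
      trivial
    induction h4 using Algebra.adjoin_induction with
    | mem z hz =>
      rw [Set.mem_singleton_iff] at hz
      rw [hz]
      exact h2
    | algebraMap k => exact h1 k
    | add a b _ _ ha hb => exact L.add_mem (ha trivial) (hb trivial)
    | mul a b _ _ ha hb => exact L.mul_mem (ha trivial) (hb trivial)

end

end Pool.Agent.X253.RK
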