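import Pool.Agent.X253.RK.A1
import Pool.Agent.X253.C3.Eq3

/-!
# The places in the quadratic extension by the third roots of unity
-/

set_option autoImplicit false
set_option linter.unusedVariables false
set_option linter.unusedSectionVars false

namespace Pool.Agent.X253.RK

open NumberField IsDedekindDomain WeierstrassCurve Polynomial
open Pool.Agent.Y692.QS (Ei w nr toC toC_inj ns mul_star toC_normSq)
open Pool.Agent.Y715.T.RecG (Pq cs_spec cs_uniq)
open Pool.Agent.W164.RC (split_abs)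
open Pool.Agent.X253.C3
open scoped Classical

section

variable {K F : Type} [Field K] [NumberField K] [Field F] [NumberField F] [Algebra K F]

/-- `u` lies over `v` -/
def Ov (v : HeightOneSpectrum (𝓞 K)) (u : HeightOneSpectrum (𝓞 F)) : Prop :=
  u.asIdeal.comap (algebraMap (𝓞 K) (𝓞 F)) = v.asIdeal

/-- the residue degree -/
def od (Q : ℕ) : ℕ := if Q % 3 = 1 then 1 else 2

lemma ext2 {J : F} (hgen : ∀ L : Subfield F, (∀ k : K, algebraMap K F k ∈ L) → J ∈ L → L = ⊤)
    (g : F ≃ₐ[K] F) (h : g J = J) : g = 1 := by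
  have h3 := hgen (IntermediateField.fixedField (Subgroup.zpowers g)).toSubfield
    (fun k => (IntermediateField.fixedField (Subgroup.zpowers g)).algebraMap_mem k)
    (by
      show J ∈ IntermediateField.fixedField (Subgroup.zpowers g)
      rw [IntermediateField.mem_fixedField_iff]
      intro t ht
      obtain ⟨n, rfl⟩ := Subgroup.mem_zpowers_iff.1 ht
      have h4 : g ∈ MulAction.stabilizer (F ≃ₐ[K] F) J := h
      exact Subgroup.zpow_mem _ h4 n)
  ext y
  have h6 : y ∈ (IntermediateField.fixedField (Subgroup.zpowers g)).toSubfield := by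
    rw [h3]
    trivial
  have h7 : y ∈ IntermediateField.fixedField (Subgroup.zpowers g) := h6
  rw [IntermediateField.mem_fixedField_iff] at h7
  exact h7 _ (Subgroup.mem_zpowers _)

lemma gJ {J : F} (hJ2 : J ^ 2 + J + 1 = 0) (g : F ≃ₐ[K] F) : g J = J ∨ g J = J ^ 2 := by
  have h1 : (g J) ^ 2 + g J + 1 = 0 := by
    rw [← map_pow, ← map_add, ← map_one g, ← map_add, hJ2, map_zero]
  have h2 : (g J - J) * (g J - J ^ 2) = 0 := by
    linear_combination h1 + (-1 + J - g J) * hJ2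
  rcases mul_eq_zero.1 h2 with h | h
  · exact Or.inl (sub_eq_zero.1 h)
  · exact Or.inr (sub_eq_zero.1 h)

/-- the involution -/
theorem inv2 {J : F} (hJ2 : J ^ 2 + J + 1 = 0) (h2 : Module.finrank K F = 2) [IsGalois K F]
    (hgen : ∀ L : Subfield F, (∀ k : K, algebraMap K F k ∈ L) → J ∈ L → L = ⊤) :
    ∃ c : F ≃ₐ[K] F, c J = J ^ 2 ∧ c * c = 1 := by
  have hfd : FiniteDimensional K F := Pool.Agent.Y715.CS.finKF
  have hcard : Nat.card (F ≃ₐ[K] F) = 2 := by rw [IsGalois.card_aut_eq_finrank, h2]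
  have : Nontrivial (F ≃ₐ[K] F) := Finite.one_lt_card_iff_nontrivial.1 (by rw [hcard]; norm_num)
  obtain ⟨c, hc⟩ := exists_ne (1 : F ≃ₐ[K] F)
  have hc2 : c J = J ^ 2 := (gJ hJ2 c).resolve_left fun h => hc (ext2 hgen c h)
  refine ⟨c, hc2, ext2 hgen _ ?_⟩
  rw [AlgEquiv.mul_apply, hc2, map_pow, hc2]
  linear_combination J * J3 hJ2

/-- the quadratic extension -/
theorem split2 {J : F} (hJ2 : J ^ 2 + J + 1 = 0) (h2 : Module.finrank K F = 2) [IsGalois K F]
    (hgen : ∀ L : Subfield F, (∀ k : K, algebraMap K F k ∈ L) → J ∈ L → L = ⊤)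
    (v : HeightOneSpectrum (𝓞 K)) (h3 : (3 : 𝓞 K) ∉ v.asIdeal) :
    (∀ u : HeightOneSpectrum (𝓞 F), Ov v u →
      Ideal.absNorm u.asIdeal = Ideal.absNorm v.asIdeal ^ od (Ideal.absNorm v.asIdeal)) ∧
    Nat.card {u : HeightOneSpectrum (𝓞 F) // Ov v u} * od (Ideal.absNorm v.asIdeal) = 2 := by
  have hfd : FiniteDimensional K F := Pool.Agent.Y715.CS.finKF
  have hJ3 := J3 hJ2
  have hinv : Algebra.IsInvariant (𝓞 K) (𝓞 F) (F ≃ₐ[K] F) := by
    constructor
    intro b hb
    obtain ⟨y, hy⟩ := (IsGalois.mem_range_algebraMap_iff_fixed (F := K) (b : F)).2 (fun σ =>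
      congrArg (fun z : 𝓞 F => (z : F)) (hb σ))
    have h1 : _root_.IsIntegral ℤ y := by
      have h2 : _root_.IsIntegral ℤ (algebraMap K F y) := by rw [hy]; exact b.2
      exact (isIntegral_algHom_iff ((algebraMap K F).toIntAlgHom) (algebraMap K F).injective).1 h2
    refine ⟨⟨y, h1⟩, ?_⟩
    apply RingOfIntegers.ext
    exact hy
  have hvmax : v.asIdeal.IsMaximal := v.isPrime.isMaximal v.ne_bot
  have hfv : Finite (𝓞 K ⧸ v.asIdeal) := Ideal.finiteQuotientOfFreeOfNeBot v.asIdeal v.ne_bot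
  have hQ : Nat.card (𝓞 K ⧸ v.asIdeal) = Ideal.absNorm v.asIdeal := by
    rw [Ideal.absNorm_apply, Submodule.cardQuot_apply]
  have hJint : _root_.IsIntegral ℤ J := by
    have h1 : _root_.IsIntegral ℤ (J ^ 3) := by
      rw [hJ3]
      exact isIntegral_one
    exact _root_.IsIntegral.of_pow (by norm_num) h1
  set Jo : 𝓞 F := ⟨J, hJint⟩ with hJo
  have hJo2 : Jo ^ 2 + Jo + 1 = 0 := RingOfIntegers.ext (by
    show (algebraMap (𝓞 F) F) (Jo ^ 2 + Jo + 1) = (algebraMap (𝓞 F) F) 0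
    rw [map_add, map_add, map_pow, map_one, map_zero]
    exact hJ2)
  have hJo3 : Jo ^ 3 = 1 := by linear_combination (Jo - 1) * hJo2
  have key : ∀ u : HeightOneSpectrum (𝓞 F), Ov v u →
      Ideal.absNorm u.asIdeal = Ideal.absNorm v.asIdeal ^ od (Ideal.absNorm v.asIdeal) ∧
      (v.asIdeal.primesOver (𝓞 F)).ncard * od (Ideal.absNorm v.asIdeal) = 2 := by
    intro u hu
    have humax : u.asIdeal.IsMaximal := u.isPrime.isMaximal u.ne_bot
    have hfu : Finite (𝓞 F ⧸ u.asIdeal) := Ideal.finiteQuotientOfFreeOfNeBot u.asIdeal u.ne_bot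
    have hover : u.asIdeal.LiesOver v.asIdeal := ⟨hu.symm⟩
    have h3u : (3 : 𝓞 F) ∉ u.asIdeal := by
      intro h
      apply h3
      rw [← hu, Ideal.mem_comap]
      rwa [map_ofNat]
    have hd1 : Jo - Jo ^ 2 ∉ u.asIdeal := by
      intro h
      apply h3u
      have e : (3 : 𝓞 F) = (-(Jo - Jo ^ 2)) * (Jo - Jo ^ 2) := by
        linear_combination (Jo ^ 2 - 3 * Jo + 3) * hJo2
      rw [e]
      exact u.asIdeal.mul_mem_left _ h
    have hd1' : Jo ^ 2 - Jo ∉ u.asIdeal := fun h => hd1 (by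
      have := u.asIdeal.neg_mem h
      rwa [neg_sub] at this)
    have hd2 : Jo - 1 ∉ u.asIdeal := by
      intro h
      apply hd1
      have e : Jo - Jo ^ 2 = (-Jo) * (Jo - 1) := by ring
      rw [e]
      exact u.asIdeal.mul_mem_left _ h
    have hd3 : Jo ^ 2 - 1 ∉ u.asIdeal := by
      intro h
      apply hd1
      have e : Jo - Jo ^ 2 = (Jo ) * (-(Jo^2 - 1)) * Jo + (Jo - Jo^2 + Jo^2 * (Jo ^ 2 - 1)) := by ring
      have e2 : Jo - Jo ^ 2 + Jo ^ 2 * (Jo ^ 2 - 1) = 2 * Jo - 2 * Jo ^ 2 := by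
        linear_combination Jo * hJo3
      have e3 : (Jo ^ 2 - 1) * (Jo ^ 2) = Jo - Jo ^ 2 := by
        linear_combination Jo * hJo3
      rw [← e3]
      exact u.asIdeal.mul_mem_right _ h
    have hsm : ∀ g : F ≃ₐ[K] F, g J = J → g • Jo = Jo := fun g h => RingOfIntegers.ext h
    have hsm2 : ∀ g : F ≃ₐ[K] F, g J = J ^ 2 → g • Jo = Jo ^ 2 := fun g h =>
      RingOfIntegers.ext (by
        show g J = (algebraMap (𝓞 F) F) (Jo ^ 2)
        rw [map_pow, h]
        rfl)
    obtain ⟨σ, hσ⟩ := IsArithFrobAt.exists_of_isInvariant (𝓞 K) (F ≃ₐ[K] F) u.asIdeal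
    have hσ' : ∀ y : 𝓞 F, σ • y - y ^ Nat.card (𝓞 K ⧸ v.asIdeal) ∈ u.asIdeal := by
      intro y
      have h1 := hσ y
      rw [← hover.over] at h1
      exact h1
    have hord : orderOf σ = od (Ideal.absNorm v.asIdeal) := by
      have h4 := hσ' Jo
      rw [hQ] at h4
      set Q := Ideal.absNorm v.asIdeal with hQd
      have hpow : Jo ^ Q = Jo ^ (Q % 3) := by
        conv_lhs => rw [← Nat.div_add_mod Q 3]
        rw [pow_add, pow_mul, hJo3, one_pow, one_mul]
      rw [hpow] at h4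
      have hlt : Q % 3 < 3 := Nat.mod_lt _ (by norm_num)
      unfold od
      rcases (by omega : Q % 3 = 0 ∨ Q % 3 = 1 ∨ Q % 3 = 2) with h | h | h
      · exfalso
        rw [h, pow_zero] at h4
        rcases gJ hJ2 σ with h5 | h5
        · rw [hsm σ h5] at h4
          exact hd2 h4
        · rw [hsm2 σ h5] at h4
          exact hd3 h4
      · rw [if_pos h, orderOf_eq_one_iff]
        refine ext2 hgen σ ((gJ hJ2 σ).resolve_right fun h5 => ?_)
        rw [h, pow_one, hsm2 σ h5] at h4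
        exact hd1' h4
      · rw [if_neg (by omega)]
        have h5 : σ J = J ^ 2 := (gJ hJ2 σ).resolve_left fun h5 => by
          rw [h, hsm σ h5] at h4
          exact hd1 h4
        refine orderOf_eq_prime (ext2 hgen _ ?_) fun h6 => ?_
        · rw [pow_two, AlgEquiv.mul_apply, h5, map_pow, h5]
          linear_combination J * hJ3
        · rw [h6, AlgEquiv.one_apply] at h5
          exact J_ne hJ2 h5.symm
    have h5 := split_abs (F ≃ₐ[K] F) v.asIdeal u.asIdeal (by
      intro g hg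
      refine ext2 hgen g ((gJ hJ2 g).resolve_right fun h5 => ?_)
      have h6 := hg Jo
      rw [hsm2 g h5] at h6
      exact hd1' h6) σ hσ'
    rw [hQ, hord, IsGalois.card_aut_eq_finrank, h2] at h5
    refine ⟨?_, h5.2⟩
    rw [Ideal.absNorm_apply, Submodule.cardQuot_apply]
    exact h5.1
  obtain ⟨u0, σ0, hu0, -⟩ := exists_frob (F := F) v
  refine ⟨fun u hu => (key u hu).1, ?_⟩
  have h6 := (key u0 hu0).2
  have h7 : Nat.card {u : HeightOneSpectrum (𝓞 F) // Ov v u} =
      (v.asIdeal.primesOver (𝓞 F)).ncard := by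
    rw [← Nat.card_coe_set_eq]
    refine Nat.card_congr
      { toFun := fun u => ⟨u.1.asIdeal, u.1.isPrime, ⟨u.2.symm⟩⟩
        invFun := fun P => ⟨⟨P.1, P.2.1, ?_⟩, ?_⟩
        left_inv := fun u => rfl
        right_inv := fun P => rfl }
    · have h8 := P.2.2.over
      intro hbot
      apply v.ne_bot
      rw [h8, hbot]
      exact Ideal.comap_bot_of_injective _ (FaithfulSMul.algebraMap_injective (𝓞 K) (𝓞 F))
    · exact P.2.2.over.symm
  rw [h7, h6]

end

end Pool.Agent.X253.RK
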