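import Pool.Agent.X253.RK.A2
import Pool.Agent.X253.C3.TwL4
import Pool.Agent.X253.C3.FamQ

/-!
# The places of a field generated by cube roots and the places of its extension by `ω`
-/

set_option autoImplicit false
set_option linter.unusedVariables false
set_option linter.unusedSectionVars false

namespace Pool.Agent.X253.RK

open NumberField IsDedekindDomain WeierstrassCurve Polynomial
open Pool.Agent.Y692.QS (Ei w nr toC toC_inj ns mul_star toC_normSq)
open Pool.Agent.Y715.T.Rec (cs nn)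
open Pool.Agent.Y715.T.RecG (Pq cs_spec cs_uniq)
open Pool.Agent.H921R2.TatePole (nm two_le_nm)
open Pool.Agent.X253.C3
open scoped Classical

section

variable {K F K₀ : Type} [Field K] [NumberField K] [Field F] [NumberField F] [Algebra K F]
  [Field K₀] [NumberField K₀] [Algebra K₀ F]

/-- the embedding of the Eisenstein integers -/
noncomputable def io (F : Type) [Field F] [NumberField F] [Algebra K₀ F] (j : Ei ≃+* 𝓞 K₀) :
    Ei →+* 𝓞 F := (algebraMap (𝓞 K₀) (𝓞 F)).comp (j : Ei →+* 𝓞 K₀)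

lemma io_coe (j : Ei ≃+* 𝓞 K₀) (a : Ei) :
    ((io F j a : 𝓞 F) : F) = algebraMap K₀ F ((j a : 𝓞 K₀) : K₀) := rfl

lemma io_expr (j : Ei ≃+* 𝓞 K₀) (z : Ei) : ((io F j z : 𝓞 F) : F) =
    (z.re : F) + (z.im : F) * algebraMap K₀ F ((j w : 𝓞 K₀) : K₀) := by
  rw [io_coe]
  have h1 : z = (z.re : Ei) + (z.im : Ei) * w := by
    apply QuadraticAlgebra.ext
    · simp [Pool.Agent.Y692.QS.w]
    · simp [Pool.Agent.Y692.QS.w]
  conv_lhs => rw [h1]
  simp

lemma io_conj (j : Ei ≃+* 𝓞 K₀) {c : F ≃ₐ[K] F}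
    (hJ2 : (algebraMap K₀ F ((j w : 𝓞 K₀) : K₀)) ^ 2 +
      algebraMap K₀ F ((j w : 𝓞 K₀) : K₀) + 1 = 0)
    (hc : c (algebraMap K₀ F ((j w : 𝓞 K₀) : K₀)) = (algebraMap K₀ F ((j w : 𝓞 K₀) : K₀)) ^ 2)
    (z : Ei) : c • io F j z = io F j (star z) := by
  apply RingOfIntegers.ext
  show c ((io F j z : 𝓞 F) : F) = ((io F j (star z) : 𝓞 F) : F)
  rw [io_expr, io_expr, map_add, map_mul, hc, map_intCast, map_intCast]
  have h1 : (star z).re = z.re - z.im := by
    simp [QuadraticAlgebra.re_star]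
    ring
  have h2 : (star z).im = -z.im := by
    simp [QuadraticAlgebra.im_star]
  rw [h1, h2]
  push_cast
  linear_combination (z.im : F) * hJ2

lemma absNorm_pow {v : HeightOneSpectrum (𝓞 K)} {p : ℕ} (hp : p.Prime) (hv : (p : 𝓞 K) ∈ v.asIdeal) :
    ∃ k, Ideal.absNorm v.asIdeal = p ^ k := by
  have h1 : Ideal.absNorm v.asIdeal ∣ Ideal.absNorm (Ideal.span {(p : 𝓞 K)}) :=
    Ideal.absNorm_dvd_absNorm_of_le (by rw [Ideal.span_singleton_le_iff_mem]; exact hv)
  rw [Ideal.absNorm_span_natCast] at h1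
  obtain ⟨k, -, hk⟩ := (Nat.dvd_prime_pow hp).1 h1
  exact ⟨k, hk⟩

/-- the image of a place under an automorphism -/
noncomputable def actP (c : F ≃ₐ[K] F) (u : HeightOneSpectrum (𝓞 F)) : HeightOneSpectrum (𝓞 F) :=
  ⟨u.asIdeal.comap (MulSemiringAction.toRingHom (F ≃ₐ[K] F) (𝓞 F) c), u.isPrime.comap _, by
    intro h
    apply u.ne_bot
    rw [eq_bot_iff]
    intro y hy
    have h1 : c⁻¹ • y ∈ u.asIdeal.comap (MulSemiringAction.toRingHom (F ≃ₐ[K] F) (𝓞 F) c) := by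
      rw [Ideal.mem_comap, MulSemiringAction.toRingHom_apply, smul_inv_smul]
      exact hy
    rw [h, Ideal.mem_bot] at h1
    rw [Ideal.mem_bot]
    have h2 := congrArg (fun t => c • t) h1
    simpa using h2⟩

lemma mem_actP (c : F ≃ₐ[K] F) (u : HeightOneSpectrum (𝓞 F)) (y : 𝓞 F) :
    y ∈ (actP c u).asIdeal ↔ c • y ∈ u.asIdeal := Iff.rfl

lemma ov_actP (c : F ≃ₐ[K] F) {v : HeightOneSpectrum (𝓞 K)} {u : HeightOneSpectrum (𝓞 F)}
    (h : Ov v u) : Ov v (actP c u) := by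
  unfold Ov at h ⊢
  rw [← h]
  ext y
  rw [Ideal.mem_comap, Ideal.mem_comap, mem_actP]
  have h1 : c • (algebraMap (𝓞 K) (𝓞 F) y) = algebraMap (𝓞 K) (𝓞 F) y := by
    apply RingOfIntegers.ext
    show c (algebraMap K F (y : K)) = algebraMap K F (y : K)
    rw [AlgEquiv.commutes]
  rw [h1]

/-- there is one place over `v` that contains `z` -/
theorem one_over (j : Ei ≃+* 𝓞 K₀)
    (hJ2 : (algebraMap K₀ F ((j w : 𝓞 K₀) : K₀)) ^ 2 +
      algebraMap K₀ F ((j w : 𝓞 K₀) : K₀) + 1 = 0) (h2 : Module.finrank K F = 2) [IsGalois K F]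
    (hgen : ∀ L : Subfield F, (∀ k : K, algebraMap K F k ∈ L) →
      algebraMap K₀ F ((j w : 𝓞 K₀) : K₀) ∈ L → L = ⊤)
    {z : Ei} (hz : Pq z) {p : ℕ} (hp : p.Prime) (hp3 : p ≠ 3) (hp1 : p % 3 = 1) (hnz : nr z = p)
    (v : HeightOneSpectrum (𝓞 K)) (hv : (p : 𝓞 K) ∈ v.asIdeal) :
    ∃ u, Ov v u ∧ io F j z ∈ u.asIdeal ∧ Ideal.absNorm u.asIdeal = Ideal.absNorm v.asIdeal ∧
      ∀ u', Ov v u' → io F j z ∈ u'.asIdeal → u' = u := by
  have h3 : (3 : 𝓞 K) ∉ v.asIdeal := by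
    intro h
    have h6 : IsCoprime (p : ℤ) 3 := by
      have := (Nat.coprime_primes hp Nat.prime_three).2 hp3
      exact_mod_cast Nat.isCoprime_iff_coprime.2 this
    obtain ⟨a, b, hab⟩ := h6
    apply v.isPrime.ne_top
    rw [Ideal.eq_top_iff_one]
    have h7 : (1 : 𝓞 K) = (a : 𝓞 K) * (p : 𝓞 K) + (b : 𝓞 K) * 3 := by
      have := congrArg (Int.cast : ℤ → 𝓞 K) hab
      push_cast at this
      exact this.symm
    rw [h7]
    exact v.asIdeal.add_mem (v.asIdeal.mul_mem_left _ hv) (v.asIdeal.mul_mem_left _ h)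
  obtain ⟨hn, hc⟩ := split2 hJ2 h2 hgen v h3
  have hod : od (Ideal.absNorm v.asIdeal) = 1 := by
    obtain ⟨k, hk⟩ := absNorm_pow hp hv
    unfold od
    rw [hk, if_pos]
    have h4 : p ≡ 1 [MOD 3] := hp1
    have h5 := h4.pow k
    rwa [one_pow] at h5
  rw [hod, mul_one] at hc
  rw [hod] at hn
  obtain ⟨c, hc1, hc2⟩ := inv2 hJ2 h2 hgen
  have hcc : ∀ y : 𝓞 F, c • c • y = y := fun y => by rw [← mul_smul, hc2, one_smul]
  have hnot : ∀ u : HeightOneSpectrum (𝓞 F), io F j z ∈ u.asIdeal →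
      io F j (star z) ∉ u.asIdeal := by
    intro u h1 h2
    exact not_dvd_star hz hp hnz ((mem_iff_of (io F j) hz.prime h1 _).1 h2)
  have hor : ∀ u, Ov v u → io F j z ∈ u.asIdeal ∨ io F j (star z) ∈ u.asIdeal := by
    intro u hu
    apply u.isPrime.mem_or_mem
    rw [← map_mul, mul_star, hnz, Int.cast_natCast, map_natCast]
    have h5 : (p : 𝓞 K) ∈ u.asIdeal.comap (algebraMap (𝓞 K) (𝓞 F)) := by
      rw [hu]
      exact hv
    rw [Ideal.mem_comap, map_natCast] at h5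
    exact h5
  have hact : ∀ u, io F j z ∈ (actP c u).asIdeal ↔ io F j (star z) ∈ u.asIdeal := by
    intro u
    rw [mem_actP, io_conj j hJ2 hc1]
  have hact2 : ∀ u, io F j (star z) ∈ (actP c u).asIdeal ↔ io F j z ∈ u.asIdeal := by
    intro u
    rw [mem_actP, io_conj j hJ2 hc1, star_star]
  have hfin : Finite {u : HeightOneSpectrum (𝓞 F) // Ov v u} := by
    apply Nat.finite_of_card_ne_zero
    rw [hc]
    norm_num
  obtain ⟨u0, hu0⟩ : ∃ u, Ov v u := by
    have : Nonempty {u : HeightOneSpectrum (𝓞 F) // Ov v u} := (Nat.card_pos_iff.1 (by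
      rw [hc]; norm_num)).1
    exact ⟨this.some.1, this.some.2⟩
  -- a place with `z`
  obtain ⟨u1, hu1, hz1⟩ : ∃ u, Ov v u ∧ io F j z ∈ u.asIdeal := by
    rcases hor u0 hu0 with h | h
    · exact ⟨u0, hu0, h⟩
    · exact ⟨actP c u0, ov_actP c hu0, (hact u0).2 h⟩
  refine ⟨u1, hu1, hz1, by rw [hn u1 hu1, pow_one], fun u' hu' hz' => ?_⟩
  by_contra hne
  -- three different places
  have hne2 : actP c u1 ≠ u1 := by
    intro h
    have h5 := (hact u1).1 (by rw [h]; exact hz1)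
    exact hnot u1 hz1 h5
  have hne3 : actP c u1 ≠ u' := by
    intro h
    have h5 := (hact u1).1 (by rw [h]; exact hz')
    exact hnot u1 hz1 h5
  have _ : Fintype {u : HeightOneSpectrum (𝓞 F) // Ov v u} := Fintype.ofFinite _
  have h7 : ({⟨u', hu'⟩, ⟨u1, hu1⟩, ⟨actP c u1, ov_actP c hu1⟩} :
      Finset {u : HeightOneSpectrum (𝓞 F) // Ov v u}).card = 3 := by
    rw [Finset.card_eq_three]
    refine ⟨_, _, _, ?_, ?_, ?_, rfl⟩
    · exact fun h => hne (congrArg Subtype.val h)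
    · exact fun h => hne3 (congrArg Subtype.val h).symm
    · exact fun h => hne2 (congrArg Subtype.val h).symm
  have h8 := Finset.card_le_univ ({⟨u', hu'⟩, ⟨u1, hu1⟩, ⟨actP c u1, ov_actP c hu1⟩} :
      Finset {u : HeightOneSpectrum (𝓞 F) // Ov v u})
  rw [h7, ← Nat.card_eq_fintype_card, hc] at h8
  norm_num at h8

/-- the number of points over isomorphic residue fields -/
theorem npt_iso {v : HeightOneSpectrum (𝓞 K)} {u : HeightOneSpectrum (𝓞 F)} (h : Ov v u)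
    (hn : Ideal.absNorm u.asIdeal = Ideal.absNorm v.asIdeal) (b : 𝓞 K) :
    npt b v = npt (algebraMap (𝓞 K) (𝓞 F) b) u := by
  have hfv : Finite (𝓞 K ⧸ v.asIdeal) := Ideal.finiteQuotientOfFreeOfNeBot v.asIdeal v.ne_bot
  have hfu : Finite (𝓞 F ⧸ u.asIdeal) := Ideal.finiteQuotientOfFreeOfNeBot u.asIdeal u.ne_bot
  have hle : v.asIdeal ≤ u.asIdeal.comap (algebraMap (𝓞 K) (𝓞 F)) := h.ge
  let q : 𝓞 K ⧸ v.asIdeal →+* 𝓞 F ⧸ u.asIdeal :=
    Ideal.quotientMap u.asIdeal (algebraMap (𝓞 K) (𝓞 F)) hle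
  have hq : Function.Injective q := Ideal.quotientMap_injective' h.le
  have hcard : Nat.card (𝓞 K ⧸ v.asIdeal) = Nat.card (𝓞 F ⧸ u.asIdeal) := by
    rw [Ideal.absNorm_apply, Submodule.cardQuot_apply, Ideal.absNorm_apply,
      Submodule.cardQuot_apply] at hn
    exact hn.symm
  have hbij : Function.Bijective q := (Nat.bijective_iff_injective_and_card q).2 ⟨hq, hcard⟩
  let e : (𝓞 K ⧸ v.asIdeal) ≃+* (𝓞 F ⧸ u.asIdeal) := RingEquiv.ofBijective q hbij
  have he : ∀ y : 𝓞 K, e (Ideal.Quotient.mk v.asIdeal y) =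
      Ideal.Quotient.mk u.asIdeal (algebraMap (𝓞 K) (𝓞 F) y) := fun y => rfl
  unfold npt
  refine Nat.card_congr (Equiv.subtypeEquiv (Equiv.prodCongr e.toEquiv e.toEquiv) fun P => ?_)
  show _ ↔ (e P.2) ^ 2 + _ * e P.2 = (e P.1) ^ 3
  rw [← he, ← map_pow, ← map_mul, ← map_add, ← map_pow, e.injective.eq_iff]

/-- the Euler factors over isomorphic residue fields -/
theorem ef_iso {v : HeightOneSpectrum (𝓞 K)} {u : HeightOneSpectrum (𝓞 F)} (h : Ov v u)
    (hn : Ideal.absNorm u.asIdeal = Ideal.absNorm v.asIdeal) (b : 𝓞 K) (s : ℂ) :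
    EF b s v = EF (algebraMap (𝓞 K) (𝓞 F) b) s u := by
  unfold EF
  have h1 : nm v = nm u := hn.symm
  rw [npt_iso h hn b, h1]

lemma cube_bij {k : Type} [Field k] [Fintype k] (h : Fintype.card k % 3 = 2) :
    Function.Bijective (fun x : k => x ^ 3) := by
  obtain ⟨n, hn⟩ : ∃ n, Fintype.card k = 3 * n + 2 := ⟨Fintype.card k / 3, by omega⟩
  refine (Fintype.bijective_iff_injective_and_card _).2 ⟨fun x y hxy => ?_, rfl⟩
  have hinv : ∀ x : k, (x ^ 3) ^ (2 * n + 1) = x := by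
    intro x
    by_cases hx : x = 0
    · rw [hx]
      simp
    · have h1 := FiniteField.pow_card_sub_one_eq_one x hx
      have h2 := FiniteField.pow_card x
      rw [← pow_mul, show 3 * (2 * n + 1) = (3 * n + 2) + (3 * n + 2 - 1) by omega, pow_add,
        ← hn, h1, h2, mul_one]
  have h1 : x ^ 3 = y ^ 3 := hxy
  rw [← hinv x, h1, hinv y]

/-- the number of points over a residue field in which all elements are cubes -/
theorem npt_two {v : HeightOneSpectrum (𝓞 K)} (h : Ideal.absNorm v.asIdeal % 3 = 2) (b : 𝓞 K) :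
    npt b v = Ideal.absNorm v.asIdeal := by
  have hmax : v.asIdeal.IsMaximal := v.isPrime.isMaximal v.ne_bot
  have hfin : Finite (𝓞 K ⧸ v.asIdeal) := Ideal.finiteQuotientOfFreeOfNeBot v.asIdeal v.ne_bot
  let _ : Field (𝓞 K ⧸ v.asIdeal) := Ideal.Quotient.field v.asIdeal
  let _ : Fintype (𝓞 K ⧸ v.asIdeal) := Fintype.ofFinite _
  have hcard : Fintype.card (𝓞 K ⧸ v.asIdeal) = Ideal.absNorm v.asIdeal := by
    rw [← Nat.card_eq_fintype_card, Ideal.absNorm_apply, Submodule.cardQuot_apply]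
  have hb := cube_bij (k := 𝓞 K ⧸ v.asIdeal) (by rw [hcard]; exact h)
  rw [← hcard, ← Nat.card_eq_fintype_card]
  unfold npt
  refine Nat.card_congr
    { toFun := fun P => P.1.2
      invFun := fun y => ⟨((Equiv.ofBijective _ hb).symm
        (y ^ 2 + Ideal.Quotient.mk v.asIdeal b * y), y), ?_⟩
      left_inv := ?_
      right_inv := fun y => rfl }
  · exact ((Equiv.ofBijective _ hb).apply_symm_apply _).symm
  · rintro ⟨⟨x, y⟩, hP⟩
    refine Subtype.ext (Prod.ext ?_ rfl)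
    show (Equiv.ofBijective _ hb).symm (y ^ 2 + Ideal.Quotient.mk v.asIdeal b * y) = x
    rw [Equiv.symm_apply_eq]
    exact hP

end

end Pool.Agent.X253.RK
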