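import Pool.Agent.X253.RK.A3
import Pool.Agent.Y333.CX.LAM
import Pool.Agent.X253.C3.Rep5

/-!
# The Euler factors at the places over a rational prime
-/

set_option autoImplicit false
set_option linter.unusedVariables false
set_option linter.unusedSectionVars false

namespace Pool.Agent.X253.RK

open NumberField IsDedekindDomain WeierstrassCurve Polynomial
open Pool.Agent.Y692.QS (Ei w nr toC toC_inj ns mul_star toC_normSq)
open Pool.Agent.Y715.T.Rec (cs nn)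
open Pool.Agent.Y715.T.RecG (Pq cs_spec cs_uniq)
open Pool.Agent.H921R2.TatePole (nm two_le_nm)
open Pool.Agent.Y703.CT (WD)
open Pool.Agent.W97.MT (ap)
open Pool.Agent.Y696.CT
open Pool.Agent.X253.C3
open scoped Classical

lemma pq_neg {p : ℕ} (hp : p.Prime) (h2 : p % 3 = 2) : Pq (-(p : Ei)) :=
  (Pool.Agent.Y333.CX.t_LAM.rec2 7 p (by norm_num) (by norm_num) hp h2).1

lemma nr_neg (p : ℕ) : nr (-(p : Ei)) = (p : ℤ) ^ 2 := by
  unfold Pool.Agent.Y692.QS.nr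
  simp

/-- rational integers are cubes modulo the primes `2` modulo `3` -/
lemma cs_zero {p : ℕ} (hp : p.Prime) (h2 : p % 3 = 2) {D : ℕ} (hD : ¬ p ∣ D) :
    cs (-(p : Ei)) (D : Ei) = 0 := by
  have hz := pq_neg hp h2
  have hfact : Fact p.Prime := ⟨hp⟩
  have hnD : ¬ (-(p : Ei)) ∣ (D : Ei) := by
    intro h
    rw [neg_dvd] at h
    obtain ⟨c, hc⟩ := h
    have h1 := congrArg QuadraticAlgebra.re hc
    have h3 : ((p : Ei) * c).re = (p : ℤ) * c.re := by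
      simp
    rw [h3] at h1
    have h4 : ((D : Ei)).re = (D : ℤ) := by simp
    rw [h4] at h1
    exact hD (Int.natCast_dvd_natCast.1 ⟨c.re, h1⟩)
  refine cs_uniq hz.prime hz.norm (cs_spec hz.prime hz.norm hnD) ?_
  rw [ZMod.val_zero, pow_zero]
  have hnn : nn (-(p : Ei)) = (p - 1) * ((p + 1) / 3) := by
    unfold Pool.Agent.Y715.T.Rec.nn
    rw [nr_neg]
    have h4 : ((p : ℤ) ^ 2).natAbs = p ^ 2 := by
      rw [Int.natAbs_pow, Int.natAbs_natCast]
    rw [h4]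
    obtain ⟨m, hm⟩ : ∃ m, p = 3 * m + 2 := ⟨p / 3, by omega⟩
    have h5 : (p + 1) / 3 = m + 1 := by omega
    rw [h5]
    have h6 : p ^ 2 - 1 = 3 * ((p - 1) * (m + 1)) := by
      rw [hm]
      have : (3 * m + 2) ^ 2 - 1 = 9 * m ^ 2 + 12 * m + 3 := by
        have : (3 * m + 2) ^ 2 = 9 * m ^ 2 + 12 * m + 4 := by ring
        omega
      rw [this]
      have e : 3 * m + 2 - 1 = 3 * m + 1 := by omega
      rw [e]
      ring
    rw [h6, Nat.mul_div_cancel_left _ (by norm_num)]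
  have h7 : ((D : ZMod p)) ^ nn (-(p : Ei)) = 1 := by
    rw [hnn, pow_mul, ZMod.pow_card_sub_one_eq_one, one_pow]
    intro h
    exact hD ((ZMod.natCast_eq_zero_iff D p).1 h)
  have h8 : (p : ℤ) ∣ (D : ℤ) ^ nn (-(p : Ei)) - 1 := by
    rw [← ZMod.intCast_zmod_eq_zero_iff_dvd]
    push_cast
    rw [h7, sub_self]
  rw [neg_dvd]
  obtain ⟨c, hc⟩ := h8
  refine ⟨(c : Ei), ?_⟩
  have := congrArg (Int.cast : ℤ → Ei) hc
  push_cast at this
  exact this

section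

variable {K F K₀ : Type} [Field K] [NumberField K] [Field F] [NumberField F] [Algebra K F]
  [Field K₀] [NumberField K₀] [Algebra K₀ F] {S : Type} [Fintype S]

/-- `F = K(ω) = ℚ(ω)(∛l_i)` -/
structure Sys (K : Type) [Field K] [NumberField K] [Algebra K F] (j : Ei ≃+* 𝓞 K₀)
    (l : S → ℕ) (yo : S → 𝓞 F) : Prop where
  J2 : (algebraMap K₀ F ((j w : 𝓞 K₀) : K₀)) ^ 2 + algebraMap K₀ F ((j w : 𝓞 K₀) : K₀) + 1 = 0
  two : Module.finrank K F = 2
  gal : IsGalois K F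
  genK : ∀ L : Subfield F, (∀ k : K, algebraMap K F k ∈ L) →
      algebraMap K₀ F ((j w : 𝓞 K₀) : K₀) ∈ L → L = ⊤
  l0 : ∀ i, l i ≠ 0
  cube : ∀ i, yo i ^ 3 = ((l i : ℕ) : 𝓞 F)
  genF : ∀ L : Subfield F, algebraMap K₀ F ((j w : 𝓞 K₀) : K₀) ∈ L →
      (∀ i, ((yo i : 𝓞 F) : F) ∈ L) → L = ⊤
  deg : Module.finrank K₀ F = 3 ^ Fintype.card S

variable {j : Ei ≃+* 𝓞 K₀} {l : S → ℕ} {yo : S → 𝓞 F}

theorem sys_split (H : Sys K j l yo) {z : Ei} (hz : Pq z) (hzl : ∀ i, ¬ z ∣ ((l i : ℕ) : Ei)) :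
    (∀ v : HeightOneSpectrum (𝓞 F), io F j z ∈ v.asIdeal →
      Ideal.absNorm v.asIdeal = (nr z).natAbs ^ fo3 (fun i => ((l i : ℕ) : Ei)) z) ∧
    Nat.card {v : HeightOneSpectrum (𝓞 F) // io F j z ∈ v.asIdeal} *
      fo3 (fun i => ((l i : ℕ) : Ei)) z = 3 ^ Fintype.card S := by
  have h := split3 j (io F j) (fun a => rfl) (fun i => ((l i : ℕ) : Ei))
    (fun i => by
      have := H.l0 i
      exact_mod_cast this) yo (fun i => by rw [H.cube, map_natCast])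
    (fun L h1 h2 => H.genF L (h1 _) h2) hz hzl
  rw [H.deg] at h
  exact h

/-- the place below -/
noncomputable def below (K : Type) [Field K] [NumberField K] [Algebra K F]
    (u : HeightOneSpectrum (𝓞 F)) : HeightOneSpectrum (𝓞 K) :=
  ⟨u.asIdeal.comap (algebraMap (𝓞 K) (𝓞 F)), u.isPrime.comap _, by
    intro h
    have h2 : ((Ideal.absNorm u.asIdeal : ℕ) : 𝓞 F) ∈ u.asIdeal := Ideal.absNorm_mem u.asIdeal
    have h3 : ((Ideal.absNorm u.asIdeal : ℕ) : 𝓞 K) ∈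
        u.asIdeal.comap (algebraMap (𝓞 K) (𝓞 F)) := by
      rw [Ideal.mem_comap, map_natCast]
      exact h2
    rw [h, Ideal.mem_bot] at h3
    have h5 : Ideal.absNorm u.asIdeal ≠ 0 := by
      have := two_le_nm u
      unfold Pool.Agent.H921R2.TatePole.nm at this
      omega
    exact h5 (by exact_mod_cast h3)⟩

lemma ov_below (u : HeightOneSpectrum (𝓞 F)) : Ov (below K u) u := rfl

lemma ov_eq {v : HeightOneSpectrum (𝓞 K)} {u : HeightOneSpectrum (𝓞 F)} (h : Ov v u) :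
    v = below K u := HeightOneSpectrum.ext h.symm

lemma mem_ov {v : HeightOneSpectrum (𝓞 K)} {u : HeightOneSpectrum (𝓞 F)} (h : Ov v u) (n : ℕ) :
    (n : 𝓞 K) ∈ v.asIdeal ↔ (n : 𝓞 F) ∈ u.asIdeal := by
  rw [← h, Ideal.mem_comap, map_natCast]

/-- the primes `1` modulo `3` -/
theorem loc1 (H : Sys K j l yo) {p : ℕ} (hp : p.Prime) (hp1 : p % 3 = 1) {z : Ei} (hz : Pq z)
    (hnz : nr z = p) {D : ℕ} (hD : ¬ p ∣ D) (hl : ∀ i, ¬ p ∣ l i) (s : ℂ) :
    (∀ v : HeightOneSpectrum (𝓞 K), (p : 𝓞 K) ∈ v.asIdeal →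
      Ideal.absNorm v.asIdeal = p ^ fo3 (fun i => ((l i : ℕ) : Ei)) z ∧
      EF ((D : ℕ) : 𝓞 K) s v =
        ((1 - (yz z D * (p : ℂ) ^ (-s)) ^ fo3 (fun i => ((l i : ℕ) : Ei)) z) *
        (1 - ((starRingEnd ℂ) (yz z D) * (p : ℂ) ^ (-s)) ^
          fo3 (fun i => ((l i : ℕ) : Ei)) z))⁻¹) ∧
    Nat.card {v : HeightOneSpectrum (𝓞 K) // (p : 𝓞 K) ∈ v.asIdeal} *
      fo3 (fun i => ((l i : ℕ) : Ei)) z = 3 ^ Fintype.card S := by
  have hgal := H.gal
  have hp3 : p ≠ 3 := by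
    rintro rfl
    norm_num at hp1
  have hfact : Fact p.Prime := ⟨hp⟩
  have hzdvd : ∀ n : ℕ, z ∣ (n : Ei) → p ∣ n := by
    intro n hn
    by_contra h
    exact int_ndvd hnz (D := (n : ℤ)) (by exact_mod_cast h) (by rwa [Int.cast_natCast])
  have hnabs : (nr z).natAbs = p := by rw [hnz, Int.natAbs_natCast]
  obtain ⟨h1, h2⟩ := sys_split H hz fun i h => hl i (hzdvd _ h)
  rw [hnabs] at h1
  have hone := one_over (K := K) j H.J2 H.two H.genK hz hp hp3 hp1 hnz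
  refine ⟨fun v hv => ?_, ?_⟩
  · obtain ⟨u, hu, hzu, hn, -⟩ := hone v hv
    refine ⟨by rw [← hn, h1 u hzu], ?_⟩
    rw [ef_iso hu hn, map_natCast]
    have h3 := ef_eq3 (io F j) hz hzu (fo3_cases _ _) (by rw [hnabs]; exact h1 u hzu)
      (a := (D : Ei)) (fun h => hD (hzdvd _ h)) s
    rw [map_natCast, hnabs] at h3
    exact h3
  · rw [← h2]
    congr 1
    refine Nat.card_congr (Equiv.ofBijective (fun v =>
      (⟨(hone v.1 v.2).choose, (hone v.1 v.2).choose_spec.2.1⟩ :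
        {u : HeightOneSpectrum (𝓞 F) // io F j z ∈ u.asIdeal})) ⟨?_, ?_⟩)
    · intro v v' h
      have h3 := congrArg Subtype.val h
      simp only at h3
      have h4 := ov_eq (hone v.1 v.2).choose_spec.1
      have h5 := ov_eq (hone v'.1 v'.2).choose_spec.1
      apply Subtype.ext
      rw [h4, h5, h3]
    · rintro ⟨u, hu⟩
      have hpu : (p : 𝓞 F) ∈ u.asIdeal := by
        have h5 : ((p : ℕ) : Ei) = z * star z := by
          rw [mul_star, hnz, Int.cast_natCast]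
        have h6 : (p : 𝓞 F) = io F j z * io F j (star z) := by
          rw [← map_mul, ← h5, map_natCast]
        rw [h6]
        exact u.asIdeal.mul_mem_right _ hu
      have hv : (p : 𝓞 K) ∈ (below K u).asIdeal := (mem_ov (ov_below u) p).2 hpu
      refine ⟨⟨below K u, hv⟩, Subtype.ext ?_⟩
      exact ((hone (below K u) hv).choose_spec.2.2.2 u (ov_below u) hu).symm

/-- the primes `2` modulo `3` -/
theorem loc2 (H : Sys K j l yo) {p : ℕ} (hp : p.Prime) (hp2 : p % 3 = 2) {D : ℕ} (hD : ¬ p ∣ D)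
    (hl : ∀ i, ¬ p ∣ l i) (s : ℂ) :
    ∃ g : {v : HeightOneSpectrum (𝓞 K) // (p : 𝓞 K) ∈ v.asIdeal} → ℕ,
      Finite {v : HeightOneSpectrum (𝓞 K) // (p : 𝓞 K) ∈ v.asIdeal} ∧
      (∀ v, g v = 1 ∨ g v = 2) ∧ (∀ v, Ideal.absNorm v.1.asIdeal = p ^ g v ∧
        EF ((D : ℕ) : 𝓞 K) s v.1 = ((1 + (p : ℂ) ^ (1 - 2 * s))⁻¹) ^ g v) ∧
      ∀ [Fintype {v : HeightOneSpectrum (𝓞 K) // (p : 𝓞 K) ∈ v.asIdeal}],
        ∑ v, g v = 3 ^ Fintype.card S := by
  have hgal := H.gal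
  have hz := pq_neg hp hp2
  have hzdvd : ∀ n : ℕ, (-(p : Ei)) ∣ (n : Ei) → p ∣ n := by
    intro n hn
    rw [neg_dvd] at hn
    obtain ⟨c, hc⟩ := hn
    have h1 := congrArg QuadraticAlgebra.re hc
    have h3 : ((p : Ei) * c).re = (p : ℤ) * c.re := by simp
    rw [h3] at h1
    have h4 : ((n : Ei)).re = (n : ℤ) := by simp
    rw [h4] at h1
    exact Int.natCast_dvd_natCast.1 ⟨c.re, h1⟩
  have hfo : fo3 (fun i => ((l i : ℕ) : Ei)) (-(p : Ei)) = 1 := by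
    unfold fo3
    rw [if_pos fun i => cs_zero hp hp2 (hl i)]
  have hnabs : (nr (-(p : Ei))).natAbs = p ^ 2 := by
    rw [nr_neg, Int.natAbs_pow, Int.natAbs_natCast]
  obtain ⟨h1, h2⟩ := sys_split H hz fun i h => hl i (hzdvd _ h)
  rw [hfo, mul_one] at h2
  rw [hfo, hnabs, pow_one] at h1
  have hmem : ∀ u : HeightOneSpectrum (𝓞 F), io F j (-(p : Ei)) ∈ u.asIdeal ↔
      (p : 𝓞 F) ∈ u.asIdeal := by
    intro u
    rw [map_neg, map_natCast, neg_mem_iff]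
  have h3 : ∀ v : HeightOneSpectrum (𝓞 K), (p : 𝓞 K) ∈ v.asIdeal → (3 : 𝓞 K) ∉ v.asIdeal := by
    intro v hv h
    have h6 : IsCoprime (p : ℤ) 3 := by
      have := (Nat.coprime_primes hp Nat.prime_three).2 (by rintro rfl; norm_num at hp2)
      exact_mod_cast Nat.isCoprime_iff_coprime.2 this
    obtain ⟨a, b, hab⟩ := h6
    apply v.isPrime.ne_top
    rw [Ideal.eq_top_iff_one]
    have h7 : (1 : 𝓞 K) = (a : 𝓞 K) * (p : 𝓞 K) + (b : 𝓞 K) * 3 := by
      have := congrArg (Int.cast : ℤ → 𝓞 K) hab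
      push_cast at this
      exact this.symm
    rw [h7]
    exact v.asIdeal.add_mem (v.asIdeal.mul_mem_left _ hv) (v.asIdeal.mul_mem_left _ h)
  have hsp := fun (v : {v : HeightOneSpectrum (𝓞 K) // (p : 𝓞 K) ∈ v.asIdeal}) =>
    split2 (F := F) H.J2 H.two H.genK v.1 (h3 v.1 v.2)
  obtain ⟨g, hg⟩ : ∃ g : {v : HeightOneSpectrum (𝓞 K) // (p : 𝓞 K) ∈ v.asIdeal} → ℕ,
      ∀ v, g v = Nat.card {u : HeightOneSpectrum (𝓞 F) // Ov v.1 u} := ⟨_, fun _ => rfl⟩
  have hpos : ∀ v, 0 < g v := by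
    intro v
    rw [hg]
    apply Nat.pos_of_ne_zero
    intro h0
    have := (hsp v).2
    rw [h0, zero_mul] at this
    norm_num at this
  have hex : ∀ v : {v : HeightOneSpectrum (𝓞 K) // (p : 𝓞 K) ∈ v.asIdeal},
      ∃ u : HeightOneSpectrum (𝓞 F), Ov v.1 u := by
    intro v
    have h0 := hpos v
    rw [hg] at h0
    exact ⟨(Nat.card_pos_iff.1 h0).1.some.1, (Nat.card_pos_iff.1 h0).1.some.2⟩
  have hcase : ∀ v, (g v = 1 ∧ Ideal.absNorm v.1.asIdeal = p) ∨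
      (g v = 2 ∧ Ideal.absNorm v.1.asIdeal = p ^ 2 ∧
        ∀ u : HeightOneSpectrum (𝓞 F), Ov v.1 u →
          Ideal.absNorm u.asIdeal = Ideal.absNorm v.1.asIdeal) := by
    intro v
    obtain ⟨k1, k2⟩ := hsp v
    rw [← hg] at k2
    obtain ⟨u, hu⟩ := hex v
    have hpu : (p : 𝓞 F) ∈ u.asIdeal := (mem_ov hu p).1 v.2
    have h5 := h1 u ((hmem u).2 hpu)
    have h6 := k1 u hu
    rw [h5] at h6
    unfold od at k1 k2 h6
    by_cases h7 : Ideal.absNorm v.1.asIdeal % 3 = 1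
    · rw [if_pos h7] at k2 h6
      right
      rw [if_pos h7] at k1
      exact ⟨by omega, by rw [pow_one] at h6; exact h6.symm, fun u hu => by
        rw [k1 u hu, pow_one]⟩
    · rw [if_neg h7] at k2 h6
      left
      refine ⟨by omega, ?_⟩
      exact (Nat.pow_left_injective (by norm_num : (2 : ℕ) ≠ 0) h6).symm
  -- the fibres
  have hcardu : Nat.card {u : HeightOneSpectrum (𝓞 F) // (p : 𝓞 F) ∈ u.asIdeal} =
      3 ^ Fintype.card S := by
    rw [← h2]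
    refine Nat.card_congr (Equiv.subtypeEquivRight fun u => (hmem u).symm)
  have hfinu : Finite {u : HeightOneSpectrum (𝓞 F) // (p : 𝓞 F) ∈ u.asIdeal} := by
    apply Nat.finite_of_card_ne_zero
    rw [hcardu]
    positivity
  let β : {u : HeightOneSpectrum (𝓞 F) // (p : 𝓞 F) ∈ u.asIdeal} →
      {v : HeightOneSpectrum (𝓞 K) // (p : 𝓞 K) ∈ v.asIdeal} := fun u =>
    ⟨below K u.1, (mem_ov (ov_below u.1) p).2 u.2⟩
  have hβ : Function.Surjective β := by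
    intro v
    obtain ⟨u, hu⟩ := hex v
    refine ⟨⟨u, (mem_ov hu p).1 v.2⟩, Subtype.ext (ov_eq hu).symm⟩
  have hfinv : Finite {v : HeightOneSpectrum (𝓞 K) // (p : 𝓞 K) ∈ v.asIdeal} :=
    Finite.of_surjective β hβ
  refine ⟨g, hfinv, fun v => ?_, fun v => ?_, ?_⟩
  · rcases hcase v with h | h
    · exact Or.inl h.1
    · exact Or.inr h.1
  · have hcp : (p : ℂ) ≠ 0 := by exact_mod_cast hp.ne_zero
    rcases hcase v with ⟨h4, h5⟩ | ⟨h4, h5, h6⟩
    · refine ⟨by rw [h4, pow_one, h5], ?_⟩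
      rw [h4, pow_one]
      unfold EF
      have h7 : nm v.1 = p := h5
      rw [npt_two (by rw [h5]; exact hp2), h7, h5, sub_self, zero_mul, sub_zero]
    · refine ⟨by rw [h4, h5], ?_⟩
      obtain ⟨u, hu⟩ := hex v
      have hpu : (p : 𝓞 F) ∈ u.asIdeal := (mem_ov hu p).1 v.2
      rw [ef_iso hu (h6 u hu), map_natCast, h4]
      have h8 := ef_eq3 (io F j) hz ((hmem u).2 hpu) (f := 1) (Or.inl rfl) (by
        rw [hnabs, pow_one]; exact h1 u ((hmem u).2 hpu)) (a := (D : Ei))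
          (fun h => hD (hzdvd _ h)) s
      rw [map_natCast, hnabs] at h8
      rw [h8]
      have h9 : yz (-(p : Ei)) (D : Ei) = -(p : ℂ) := by
        unfold yz
        rw [cs_zero hp hp2 hD, neg_zero, ZMod.val_zero, pow_zero, one_mul, map_neg, map_natCast]
      rw [h9, map_neg, Complex.conj_natCast, pow_one]
      have h10 : (((p ^ 2 : ℕ) : ℂ)) ^ (-s) = ((p : ℂ) ^ (-s)) ^ 2 := by
        rw [Nat.cast_pow, ← Complex.natCast_cpow_natCast_mul, Complex.cpow_nat_mul]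
      have h11 : (p : ℂ) ^ (1 - 2 * s) = (p : ℂ) * ((p : ℂ) ^ (-s)) ^ 2 := by
        have e : (1 - 2 * s : ℂ) = 1 + ((2 : ℕ) : ℂ) * (-s) := by push_cast; ring
        rw [e, Complex.cpow_add _ _ hcp, Complex.cpow_one, Complex.cpow_nat_mul]
      rw [h10, h11, inv_pow]
      congr 1
      ring
  · intro _
    rw [← hcardu]
    have h5 : Nat.card {u : HeightOneSpectrum (𝓞 F) // (p : 𝓞 F) ∈ u.asIdeal} =
        Nat.card (Σ v : {v : HeightOneSpectrum (𝓞 K) // (p : 𝓞 K) ∈ v.asIdeal},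
          {u : HeightOneSpectrum (𝓞 F) // Ov v.1 u}) := by
      refine Nat.card_congr
        { toFun := fun u => ⟨β u, ⟨u.1, ov_below u.1⟩⟩
          invFun := fun y => ⟨y.2.1, (mem_ov y.2.2 p).1 y.1.2⟩
          left_inv := fun u => rfl
          right_inv := ?_ }
      rintro ⟨⟨v, hv⟩, ⟨u, hu⟩⟩
      have h6 : v = below K u := ov_eq hu
      subst h6
      rfl
    have hfin : ∀ v : {v : HeightOneSpectrum (𝓞 K) // (p : 𝓞 K) ∈ v.asIdeal},
        Finite {u : HeightOneSpectrum (𝓞 F) // Ov v.1 u} := by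
      intro v
      apply Nat.finite_of_card_ne_zero
      rw [← hg]
      exact (hpos v).ne'
    rw [h5, Nat.card_sigma]
    exact Finset.sum_congr rfl fun v _ => hg v

end

end Pool.Agent.X253.RK
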