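import Pool.Agent.X253.RK.A4
import Pool.Agent.X253.C3.Rep6
import Pool.Agent.Y809.QT.Eul

/-!
# The Euler product of `y² + D y = x³` over `ℚ(∛l_i)` from the Euler products over `ℚ`
-/

set_option autoImplicit false
set_option linter.unusedVariables false
set_option linter.unusedSectionVars false

namespace Pool.Agent.X253.RK

open NumberField IsDedekindDomain WeierstrassCurve Polynomial
open Pool.Agent.Y692.QS (Ei w nr toC toC_inj ns mul_star toC_normSq)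
open Pool.Agent.Y715.T.Rec (cs nn)
open Pool.Agent.Y715.T.RecG (Pq cs_spec cs_uniq)
open Pool.Agent.H921R2.TatePole (nm two_le_nm nm_summable)
open Pool.Agent.Y703.CT (WD Cls NoSplit)
open Pool.Agent.W97.MT (ap)
open Pool.Agent.Y696.CT
open Pool.Agent.Y809.QT (inv_bound)
open Pool.Agent.X253.C3
open scoped Classical

lemma fq_one {z : Ei} (hz : Pq z) {p : ℕ} (hp : p.Prime) (hnz : nr z = p) (hp1 : p % 3 = 1)
    {N : ℕ} (hN : ¬ p ∣ N) (s : ℂ) :
    fQ N s p = ((1 - yz z (N : Ei) * (p : ℂ) ^ (-s)) *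
      (1 - (starRingEnd ℂ) (yz z (N : Ei)) * (p : ℂ) ^ (-s)))⁻¹ := by
  have hq : (p : ℂ) ≠ 0 := by exact_mod_cast hp.ne_zero
  have h2 : (p : ℂ) ^ (1 - 2 * s) = (p : ℂ) * ((p : ℂ) ^ (-s)) ^ 2 := by
    have e : (1 - 2 * s : ℂ) = 1 + ((2 : ℕ) : ℂ) * (-s) := by push_cast; ring
    rw [e, Complex.cpow_add _ _ hq, Complex.cpow_one, Complex.cpow_nat_mul]
  have h3 := yz_norm z (N : Ei)
  rw [hnz, Int.natAbs_natCast] at h3
  unfold fQ
  rw [ap_yz hz hp hnz hp1 hN, h2]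
  congr 1
  linear_combination (-((p : ℂ) ^ (-s)) ^ 2) * h3

lemma fq_two {p : ℕ} (hp : p.Prime) (hp2 : p % 3 = 2) (N : ℕ) (s : ℂ) :
    fQ N s p = (1 + (p : ℂ) ^ (1 - 2 * s))⁻¹ := by
  have hfact : Fact p.Prime := ⟨hp⟩
  unfold fQ
  rw [ap_cube (cube_two hp2), Int.cast_zero, zero_mul, sub_zero]

lemma zndvd {z : Ei} {p : ℕ} (hp : p.Prime) (hnz : nr z = p) (n : ℕ) (hn : ¬ p ∣ n) :
    ¬ z ∣ (n : Ei) := by
  have hfact : Fact p.Prime := ⟨hp⟩
  intro h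
  exact int_ndvd hnz (D := (n : ℤ)) (by exact_mod_cast hn) (by rwa [Int.cast_natCast])

/-- cubes do not change the Euler factor -/
theorem fq_cube {N n p : ℕ} (hp : p.Prime) (hp3 : p ≠ 3) (hN : ¬ p ∣ N) (hn : ¬ p ∣ n) (s : ℂ) :
    fQ (N * n ^ 3) s p = fQ N s p := by
  have hmod : p % 3 = 1 ∨ p % 3 = 2 := by
    have h4 : ¬ 3 ∣ p := fun hd =>
      hp3 ((Nat.prime_dvd_prime_iff_eq Nat.prime_three hp).1 hd).symm
    omega
  rcases hmod with h | h
  · obtain ⟨z, hz, hnz⟩ := exists_pq hp h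
    have h1 : ¬ p ∣ N * n ^ 3 := by
      intro hd
      rcases hp.dvd_mul.1 hd with hd | hd
      · exact hN hd
      · exact hn (hp.dvd_of_dvd_pow hd)
    have h2 : yz z ((N * n ^ 3 : ℕ) : Ei) = yz z (N : Ei) := by
      unfold yz
      have h3 : cs z ((N * n ^ 3 : ℕ) : Ei) = cs z (N : Ei) := by
        push_cast
        rw [Pool.Agent.Y715.T.RecG.cs_mul hz.prime hz.norm (zndvd hp hnz _ hN)
          (fun h => zndvd hp hnz _ hn (hz.prime.dvd_of_dvd_pow h)),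
          Pool.Agent.Y715.T.RecG.cs_pow hz.prime hz.norm (zndvd hp hnz _ hn)]
        have e3 : (((3 : ℕ) : ZMod 3)) = 0 := by decide
        rw [e3, zero_mul, add_zero]
      rw [h3]
    rw [fq_one hz hp hnz h h1, fq_one hz hp hnz h hN, h2]
  · rw [fq_two hp h, fq_two hp h]

/-- the primes `1` modulo `3` -/
theorem prod_one {z : Ei} (hz : Pq z) {p : ℕ} (hp : p.Prime) (hnz : nr z = p) (hp1 : p % 3 = 1)
    {S : Type} [Fintype S] {D : ℕ} {l : S → ℕ} (hD : ¬ p ∣ D) (hl : ∀ i, ¬ p ∣ l i) (s : ℂ) :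
    ∏ ε : S → Fin 3, fQ (DN D l ε) s p =
      ((1 - (yz z (D : Ei) * (p : ℂ) ^ (-s)) ^ fo3 (fun i => ((l i : ℕ) : Ei)) z) *
      (1 - ((starRingEnd ℂ) (yz z (D : Ei)) * (p : ℂ) ^ (-s)) ^
        fo3 (fun i => ((l i : ℕ) : Ei)) z))⁻¹ ^
        (3 ^ Fintype.card S / fo3 (fun i => ((l i : ℕ) : Ei)) z) := by
  set lz : S → Ei := fun i => ((l i : ℕ) : Ei) with hlz
  have hzD := zndvd hp hnz D hD
  have hzl : ∀ i, ¬ z ∣ lz i := fun i => zndvd hp hnz (l i) (hl i)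
  have h1 : ∀ ε : S → Fin 3, ¬ p ∣ DN D l ε := by
    intro ε h
    unfold DN at h
    rcases hp.dvd_mul.1 h with h | h
    · exact hD h
    · obtain ⟨i, -, hi⟩ := (hp.prime.dvd_finsetProd_iff _).1 h
      exact hl i (hp.dvd_of_dvd_pow hi)
  set X : ℂ := (p : ℂ) ^ (-s) with hX
  have h2 : ∀ ε : S → Fin 3, fQ (DN D l ε) s p =
      ((1 - (yz z (D : Ei) * X) * ∏ i, uz z (lz i) ^ ((ε i : Fin 3) : ℕ)) *
      (1 - ((starRingEnd ℂ) (yz z (D : Ei)) * X) *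
        ∏ i, ((starRingEnd ℂ) (uz z (lz i))) ^ ((ε i : Fin 3) : ℕ)))⁻¹ := by
    intro ε
    rw [fq_one hz hp hnz hp1 (h1 ε), ← aE_nat, yz_aE hz hzD hzl, map_mul, map_prod]
    simp only [map_pow]
    congr 1
    ring
  rw [Finset.prod_congr rfl fun ε _ => h2 ε, Finset.prod_inv_distrib, Finset.prod_mul_distrib]
  have hf : fo3 lz z = if ∀ i, uz z (lz i) = 1 then 1 else 3 := by
    unfold fo3
    by_cases h : ∀ i, cs z (lz i) = 0
    · rw [if_pos h, if_pos fun i => (uz_one z (lz i)).2 (h i)]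
    · rw [if_neg h, if_neg fun h' => h fun i => (uz_one z (lz i)).1 (h' i)]
  have hf' : fo3 lz z = if ∀ i, (starRingEnd ℂ) (uz z (lz i)) = 1 then 1 else 3 := by
    rw [hf]
    congr 1
    refine propext (forall_congr' fun i => ?_)
    constructor
    · intro h
      rw [h, map_one]
    · intro h
      have h3 := congrArg (starRingEnd ℂ) h
      rwa [Complex.conj_conj, map_one] at h3
  rw [gen3 (fun i => uz z (lz i)) (fun i => uz_three z (lz i)) (yz z (D : Ei) * X) hf,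
    gen3 (fun i => (starRingEnd ℂ) (uz z (lz i)))
      (fun i => by rw [← map_pow, uz_three, map_one]) ((starRingEnd ℂ) (yz z (D : Ei)) * X) hf',
    ← mul_pow, inv_pow]

section

variable {K F K₀ : Type} [Field K] [NumberField K] [Field F] [NumberField F] [Algebra K F]
  [Field K₀] [NumberField K₀] [Algebra K₀ F] {S : Type} [Fintype S]
  {j : Ei ≃+* 𝓞 K₀} {l : S → ℕ} {yo : S → 𝓞 F}

lemma ex_dvd (v : HeightOneSpectrum (𝓞 K)) : ∀ n : ℕ, n ≠ 0 → (n : 𝓞 K) ∈ v.asIdeal →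
    ∃ p : ℕ, p.Prime ∧ p ∣ n ∧ (p : 𝓞 K) ∈ v.asIdeal := by
  intro n
  induction n using Nat.strong_induction_on with
  | _ n ih =>
    intro h0 hn
    have h1 : n ≠ 1 := by
      rintro rfl
      rw [Nat.cast_one] at hn
      exact v.isPrime.ne_top ((Ideal.eq_top_iff_one _).2 hn)
    have hp := Nat.minFac_prime h1
    obtain ⟨m, hm⟩ := Nat.minFac_dvd n
    have h2 : ((n.minFac : ℕ) : 𝓞 K) * (m : 𝓞 K) ∈ v.asIdeal := by
      rw [← Nat.cast_mul, ← hm]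
      exact hn
    rcases v.isPrime.mem_or_mem h2 with h3 | h3
    · exact ⟨_, hp, Nat.minFac_dvd n, h3⟩
    · have hm0 : m ≠ 0 := by
        rintro rfl
        rw [mul_zero] at hm
        exact h0 hm
      have hlt : m < n := by
        conv_rhs => rw [hm]
        exact lt_mul_of_one_lt_left (Nat.pos_of_ne_zero hm0) hp.one_lt
      obtain ⟨p, h4, h5, h6⟩ := ih m hlt hm0 h3
      exact ⟨p, h4, h5.trans ⟨n.minFac, by rw [mul_comm]; exact hm⟩, h6⟩

lemma ex_p (v : HeightOneSpectrum (𝓞 K)) : ∃ p : ℕ, p.Prime ∧ (p : 𝓞 K) ∈ v.asIdeal := by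
  have h5 : Ideal.absNorm v.asIdeal ≠ 0 := by
    have := two_le_nm v
    unfold Pool.Agent.H921R2.TatePole.nm at this
    omega
  obtain ⟨p, h1, -, h2⟩ := ex_dvd v _ h5 (Ideal.absNorm_mem v.asIdeal)
  exact ⟨p, h1, h2⟩

lemma mem_nat {v : HeightOneSpectrum (𝓞 K)} {p : ℕ} (hp : p.Prime) (hv : (p : 𝓞 K) ∈ v.asIdeal)
    (M : ℕ) : (M : 𝓞 K) ∈ v.asIdeal ↔ p ∣ M := by
  constructor
  · intro h
    by_contra hn
    have h6 : IsCoprime (p : ℤ) (M : ℤ) := Nat.isCoprime_iff_coprime.2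
      ((Nat.Prime.coprime_iff_not_dvd hp).2 hn)
    obtain ⟨a, b, hab⟩ := h6
    apply v.isPrime.ne_top
    rw [Ideal.eq_top_iff_one]
    have h7 : (1 : 𝓞 K) = (a : 𝓞 K) * (p : 𝓞 K) + (b : 𝓞 K) * (M : 𝓞 K) := by
      have := congrArg (Int.cast : ℤ → 𝓞 K) hab
      push_cast at this
      exact this.symm
    rw [h7]
    exact v.asIdeal.add_mem (v.asIdeal.mul_mem_left _ hv) (v.asIdeal.mul_mem_left _ h)
  · rintro ⟨c, rfl⟩
    rw [Nat.cast_mul]
    exact v.asIdeal.mul_mem_right _ hv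

/-- the Euler factors over a rational prime -/
theorem loc_all (H : Sys K j l yo) {p : ℕ} (hp : p.Prime) (hp3 : p ≠ 3) {D : ℕ} (hD : ¬ p ∣ D)
    (hl : ∀ i, ¬ p ∣ l i) (s : ℂ) :
    Finite {v : HeightOneSpectrum (𝓞 K) // (p : 𝓞 K) ∈ v.asIdeal} ∧
    (∀ [Fintype {v : HeightOneSpectrum (𝓞 K) // (p : 𝓞 K) ∈ v.asIdeal}],
      ∏ v : {v : HeightOneSpectrum (𝓞 K) // (p : 𝓞 K) ∈ v.asIdeal}, EF ((D : ℕ) : 𝓞 K) s v.1 =
        ∏ ε : S → Fin 3, fQ (DN D l ε) s p) ∧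
    (∀ v : HeightOneSpectrum (𝓞 K), (p : 𝓞 K) ∈ v.asIdeal → ∃ a b : ℂ,
      EF ((D : ℕ) : 𝓞 K) s v = ((1 - a) * (1 - b))⁻¹ ∧
      ‖a‖ ≤ (nm v : ℝ) ^ (-(s.re - 1 / 2)) ∧ ‖b‖ ≤ (nm v : ℝ) ^ (-(s.re - 1 / 2))) := by
  have hmod : p % 3 = 1 ∨ p % 3 = 2 := by
    have h4 : ¬ 3 ∣ p := fun hd =>
      hp3 ((Nat.prime_dvd_prime_iff_eq Nat.prime_three hp).1 hd).symm
    omega
  have hq : (p : ℂ) ≠ 0 := by exact_mod_cast hp.ne_zero
  have hpos' : (0 : ℝ) < (p : ℝ) := by exact_mod_cast hp.pos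
  rcases hmod with h | h
  · obtain ⟨z, hz, hnz⟩ := exists_pq hp h
    have hnabs : (nr z).natAbs = p := by rw [hnz, Int.natAbs_natCast]
    obtain ⟨h1, hcard⟩ := loc1 H hp h hz hnz hD hl s
    have hfo : 0 < fo3 (fun i => ((l i : ℕ) : Ei)) z := by
      rcases fo3_cases (fun i => ((l i : ℕ) : Ei)) z with h | h <;> rw [h] <;> norm_num
    have hfin : Finite {v : HeightOneSpectrum (𝓞 K) // (p : 𝓞 K) ∈ v.asIdeal} := by
      apply Nat.finite_of_card_ne_zero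
      intro h1
      rw [h1, zero_mul] at hcard
      exact (pow_ne_zero _ (by norm_num)) hcard.symm
    refine ⟨hfin, ?_, ?_⟩
    · intro _
      rw [prod_one hz hp hnz h hD hl s, Finset.prod_congr rfl fun v _ => (h1 v.1 v.2).2,
        Finset.prod_const, Finset.card_univ]
      congr 1
      rw [← hcard, Nat.mul_div_cancel _ hfo, Nat.card_eq_fintype_card]
    · intro v hv
      refine ⟨_, _, (h1 v hv).2, ?_, ?_⟩
      all_goals
        have h10 : (nm v : ℝ) = (p : ℝ) ^ fo3 (fun i => ((l i : ℕ) : Ei)) z := by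
          unfold Pool.Agent.H921R2.TatePole.nm
          rw [(h1 v hv).1]
          push_cast
          rfl
        have h11 := norm_yz z (D : Ei)
        rw [hnabs] at h11
        rw [h10, ← Real.rpow_natCast, ← Real.rpow_mul (Nat.cast_nonneg _), norm_pow,
          norm_mul]
        first
          | rw [Complex.norm_conj, h11]
          | rw [h11]
        rw [norm_cp hp.pos, ← Real.rpow_add hpos', ← Real.rpow_natCast,
          ← Real.rpow_mul (Nat.cast_nonneg _)]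
        apply le_of_eq
        congr 1
        ring
  · obtain ⟨g, hfin, hg, hv, hsum⟩ := loc2 H hp h hD hl s
    refine ⟨hfin, ?_, ?_⟩
    · intro _
      rw [Finset.prod_congr rfl fun v _ => (hv v).2, Finset.prod_pow_eq_pow_sum, hsum,
        Finset.prod_congr rfl fun ε _ => fq_two hp h _ s, Finset.prod_const, Finset.card_univ,
        Fintype.card_fun, Fintype.card_fin]
    · intro v hpv
      obtain ⟨h1, h2⟩ := hv ⟨v, hpv⟩
      have hX : (p : ℂ) ^ (1 - 2 * s) = (p : ℂ) * ((p : ℂ) ^ (-s)) ^ 2 := by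
        have e : (1 - 2 * s : ℂ) = 1 + ((2 : ℕ) : ℂ) * (-s) := by push_cast; ring
        rw [e, Complex.cpow_add _ _ hq, Complex.cpow_one, Complex.cpow_nat_mul]
      rcases hg ⟨v, hpv⟩ with h3 | h3
      · have h4 : (nm v : ℝ) = (p : ℝ) := by
          unfold Pool.Agent.H921R2.TatePole.nm
          rw [h1, h3, pow_one]
        have hsq : (((√(p : ℝ) : ℝ) : ℂ)) ^ 2 = (p : ℂ) := by
          have := Real.sq_sqrt (Nat.cast_nonneg (α := ℝ) p)
          exact_mod_cast this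
        have hn : ‖(((√(p : ℝ) : ℝ) : ℂ) * Complex.I)‖ = (p : ℝ) ^ (1 / 2 : ℝ) := by
          rw [norm_mul, Complex.norm_I, mul_one, Complex.norm_real, Real.norm_eq_abs,
            abs_of_nonneg (Real.sqrt_nonneg _), Real.sqrt_eq_rpow]
        refine ⟨(((√(p : ℝ) : ℝ) : ℂ) * Complex.I) * (p : ℂ) ^ (-s),
          -((((√(p : ℝ) : ℝ) : ℂ) * Complex.I) * (p : ℂ) ^ (-s)), ?_, ?_, ?_⟩
        · rw [h2, h3, pow_one, hX]
          congr 1
          linear_combination (-(((p : ℂ) ^ (-s)) ^ 2)) * hsq +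
            (((p : ℂ) ^ (-s)) ^ 2 * (((√(p : ℝ) : ℝ) : ℂ)) ^ 2) * Complex.I_sq
        · rw [norm_mul, hn, norm_cp hp.pos, ← Real.rpow_add hpos', h4]
          apply le_of_eq
          congr 1
          ring
        · rw [norm_neg, norm_mul, hn, norm_cp hp.pos, ← Real.rpow_add hpos', h4]
          apply le_of_eq
          congr 1
          ring
      · have h4 : (nm v : ℝ) = (p : ℝ) ^ (2 : ℝ) := by
          unfold Pool.Agent.H921R2.TatePole.nm
          rw [h1, h3]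
          push_cast
          exact (Real.rpow_natCast _ 2).symm
        have hb : ‖-((p : ℂ) * ((p : ℂ) ^ (-s)) ^ 2)‖ ≤ (nm v : ℝ) ^ (-(s.re - 1 / 2)) := by
          rw [norm_neg, norm_mul, norm_pow, norm_cp hp.pos, Complex.norm_natCast, h4,
            ← Real.rpow_mul (Nat.cast_nonneg _), ← Real.rpow_natCast,
            ← Real.rpow_mul (Nat.cast_nonneg _)]
          apply le_of_eq
          nth_rewrite 1 [← Real.rpow_one (p : ℝ)]
          rw [← Real.rpow_add hpos']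
          congr 1
          push_cast
          ring
        refine ⟨-((p : ℂ) * ((p : ℂ) ^ (-s)) ^ 2), -((p : ℂ) * ((p : ℂ) ^ (-s)) ^ 2), ?_, hb, hb⟩
        rw [h2, h3, hX, inv_pow]
        congr 1
        ring

/-- the Euler product over `K` -/
theorem eulK (H : Sys K j l yo) {M D : ℕ} (hM : M ≠ 0) (h3M : 3 ∣ M) (hDM : D ∣ M)
    (hlM : ∀ i, l i ∣ M) {s : ℂ} (hs : 3 / 2 < s.re) (N n : (S → Fin 3) → ℕ)
    (hN : ∀ ε, N ε * n ε ^ 3 = DN D l ε) (L : (S → Fin 3) → ℂ)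
    (hL : ∀ ε, HasProd (fun p : {p : Nat.Primes // ¬ (p : ℕ) ∣ M} => fQ (N ε) s (p.1 : ℕ)) (L ε)) :
    HasProd (fun v : {v : HeightOneSpectrum (𝓞 K) // ((M : ℕ) : 𝓞 K) ∉ v.asIdeal} =>
      EF ((D : ℕ) : 𝓞 K) s v.1) (∏ ε, L ε) := by
  have h3 : ∀ p : {p : Nat.Primes // ¬ (p : ℕ) ∣ M}, (p.1 : ℕ) ≠ 3 := fun p h => p.2 (h ▸ h3M)
  have hloc := fun p : {p : Nat.Primes // ¬ (p : ℕ) ∣ M} =>
    loc_all H p.1.2 (h3 p) (fun h => p.2 (h.trans hDM)) (fun i h => p.2 (h.trans (hlM i))) s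
  set e : (Σ p : {p : Nat.Primes // ¬ (p : ℕ) ∣ M},
      {v : HeightOneSpectrum (𝓞 K) // (((p.1 : ℕ) : ℕ) : 𝓞 K) ∈ v.asIdeal}) →
    {v : HeightOneSpectrum (𝓞 K) // ((M : ℕ) : 𝓞 K) ∉ v.asIdeal} := fun y =>
      ⟨y.2.1, fun h => y.1.2 ((mem_nat y.1.1.2 y.2.2 M).1 h)⟩ with he
  have hinj : Function.Injective e := by
    rintro ⟨p, ⟨v, hv⟩⟩ ⟨p', ⟨v', hv'⟩⟩ hvw
    simp only [he, Subtype.mk.injEq] at hvw
    subst hvw
    have h4 : (p.1 : ℕ) ∣ (p'.1 : ℕ) := (mem_nat p.1.2 hv _).1 hv'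
    have h5 : p = p' := Subtype.ext (Subtype.ext
      ((Nat.prime_dvd_prime_iff_eq p.1.2 p'.1.2).1 h4))
    subst h5
    rfl
  have hsurj : Function.Surjective e := by
    rintro ⟨v, hv⟩
    obtain ⟨p, hp, hpv⟩ := ex_p v
    have hpM : ¬ p ∣ M := fun h => hv ((mem_nat hp hpv M).2 h)
    exact ⟨⟨⟨⟨p, hp⟩, hpM⟩, ⟨v, hpv⟩⟩, rfl⟩
  set E := Equiv.ofBijective e ⟨hinj, hsurj⟩ with hE
  -- multipliability
  have hmult : Multipliable (fun v : {v : HeightOneSpectrum (𝓞 K) // ((M : ℕ) : 𝓞 K) ∉ v.asIdeal} =>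
      EF ((D : ℕ) : 𝓞 K) s v.1) := by
    have hsum0 := nm_summable (K := K) (x := s.re - 1 / 2) (by linarith)
    have hsum := hsum0.subtype {v : HeightOneSpectrum (𝓞 K) | ((M : ℕ) : 𝓞 K) ∉ v.asIdeal}
    have h5 : Summable (fun v : {v : HeightOneSpectrum (𝓞 K) // ((M : ℕ) : 𝓞 K) ∉ v.asIdeal} =>
        ‖EF ((D : ℕ) : 𝓞 K) s v.1 - 1‖) := by
      refine Summable.of_norm_bounded_eventually (hsum.mul_left 12) ?_
      have h6 := hsum.tendsto_cofinite_zero.eventually (Iio_mem_nhds (by norm_num : (0 : ℝ) < 1 / 4))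
      filter_upwards [h6] with v hv
      rw [norm_norm]
      obtain ⟨⟨p, ⟨v', hv'⟩⟩, hev⟩ := hsurj v
      have hvv : v' = v.1 := congrArg Subtype.val hev
      obtain ⟨a, b, h7, h8, h9⟩ := (hloc p).2.2 v' hv'
      rw [← hvv, h7]
      have hv4 : (nm v' : ℝ) ^ (-(s.re - 1 / 2)) ≤ 1 / 4 := by
        rw [hvv]
        exact le_of_lt hv
      have h12 := inv_bound h8 h9 hv4
      rw [hvv] at h12
      exact h12
    have h7 := multipliable_one_add_of_summable h5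
    refine h7.congr (fun v => ?_)
    ring
  have hG : HasProd (fun p : {p : Nat.Primes // ¬ (p : ℕ) ∣ M} => ∏ ε, fQ (N ε) s (p.1 : ℕ))
      (∏ ε, L ε) :=
    hasProd_prod (s := (Finset.univ : Finset (S → Fin 3)))
      (f := fun ε (p : {p : Nat.Primes // ¬ (p : ℕ) ∣ M}) => fQ (N ε) s (p.1 : ℕ))
      (a := L) (fun ε _ => hL ε)
  rw [← E.hasProd_iff]
  refine HasProd.sigma_of_hasProd hG ?_ ((E.multipliable_iff).2 hmult)
  intro p
  have hfin := (hloc p).1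
  have _ : Fintype {v : HeightOneSpectrum (𝓞 K) // (((p.1 : ℕ) : ℕ) : 𝓞 K) ∈ v.asIdeal} :=
    Fintype.ofFinite _
  show HasProd (fun c : {v : HeightOneSpectrum (𝓞 K) // (((p.1 : ℕ) : ℕ) : 𝓞 K) ∈ v.asIdeal} =>
    EF ((D : ℕ) : 𝓞 K) s c.1) _
  have hpD : ∀ ε, ¬ (p.1 : ℕ) ∣ DN D l ε := by
    intro ε h
    unfold DN at h
    rcases p.1.2.dvd_mul.1 h with h | h
    · exact p.2 (h.trans hDM)
    · obtain ⟨i, -, hi⟩ := (p.1.2.prime.dvd_finsetProd_iff _).1 h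
      exact p.2 ((p.1.2.dvd_of_dvd_pow hi).trans (hlM i))
  have h6 : ∀ ε, fQ (N ε) s (p.1 : ℕ) = fQ (DN D l ε) s (p.1 : ℕ) := by
    intro ε
    rw [← hN ε, fq_cube p.1.2 (h3 p)]
    · intro h
      exact hpD ε (by rw [← hN ε]; exact h.mul_right _)
    · intro h
      exact hpD ε (by rw [← hN ε]; exact (dvd_pow h (by norm_num)).mul_left _)
  rw [Finset.prod_congr rfl fun ε _ => h6 ε, ← (hloc p).2.1]
  exact hasProd_fintype _

end

end Pool.Agent.X253.RK
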